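import Mathlib

/-! The first Robin eigenfunction of a planar domain. -/

set_option autoImplicit false

open MeasureTheory Set Filter Topology

namespace Pool.Agent.H232Z.Rob

/-- The Euclidean plane. -/
abbrev E := EuclideanSpace ℝ (Fin 2)

/-- Arc length on the boundary: the one dimensional Hausdorff measure restricted to the
topological boundary of `Ω`. -/
noncomputable def bdry (Ω : Set E) : Measure E :=
  (Measure.hausdorffMeasure (1 : ℝ)).restrict (frontier Ω)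

/-- `IsSobolev Ω u G T`: the function `u` lies in `H¹(Ω)` with weak gradient `G` and boundary
trace `T`, that is, `(u, G, T)` is a limit in `L²(Ω) × L²(Ω; ℝ²) × L²(∂Ω)` of triples
`(φ, ∇φ, φ restricted to ∂Ω)` with `φ` continuously differentiable on the plane. -/
structure IsSobolev (Ω : Set E) (u : E → ℝ) (G : E → E) (T : E → ℝ) : Prop where
  memLp_u : MemLp u 2 (volume.restrict Ω)
  memLp_G : MemLp G 2 (volume.restrict Ω)
  memLp_T : MemLp T 2 (bdry Ω)
  approx : ∃ φ : ℕ → E → ℝ, (∀ k, ContDiff ℝ 1 (φ k)) ∧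
    Tendsto (fun k => eLpNorm (φ k - u) 2 (volume.restrict Ω)) atTop (𝓝 0) ∧
    Tendsto (fun k => eLpNorm (gradient (φ k) - G) 2 (volume.restrict Ω)) atTop (𝓝 0) ∧
    Tendsto (fun k => eLpNorm (φ k - T) 2 (bdry Ω)) atTop (𝓝 0)

/-- The Robin Rayleigh quotient `(∫_Ω |∇u|² + α ∫_∂Ω u²) / ∫_Ω u²`. -/
noncomputable def rayleigh (Ω : Set E) (α : ℝ) (u : E → ℝ) (G : E → E) (T : E → ℝ) : ℝ :=
  ((∫ x in Ω, ‖G x‖ ^ 2) + α * ∫ x, T x ^ 2 ∂(bdry Ω)) / ∫ x in Ω, u x ^ 2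

/-- `u` is a first Robin eigenfunction: it is positive in `Ω`, lies in `H¹(Ω)` and minimises the
Rayleigh quotient among all nonzero elements of `H¹(Ω)`. -/
def IsFirstRobin (Ω : Set E) (α : ℝ) (u : E → ℝ) : Prop :=
  (∀ x ∈ Ω, 0 < u x) ∧ ∃ (G : E → E) (T : E → ℝ), IsSobolev Ω u G T ∧
    ∀ (v : E → ℝ) (H : E → E) (S : E → ℝ), IsSobolev Ω v H S → (∫ x in Ω, v x ^ 2) ≠ 0 →
      rayleigh Ω α u G T ≤ rayleigh Ω α v H S

end Pool.Agent.H232Z.Rob
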