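import Pool.Agent.H232Z.Rob.Hess

/-! The domain: a convex set whose boundary has infinitely many sides accumulating at a point. -/

set_option autoImplicit false

open MeasureTheory Set Filter Topology

namespace Pool.Agent.H232Z.Rob

/-- slope of the side number `k` -/
noncomputable def sl (k : ℕ) : ℝ := (1 / 2) ^ k / 8

/-- the line carrying the side number `k` -/
noncomputable def L (k : ℕ) (x : ℝ) : ℝ := sl k * (x - (1 / 8) ^ k / 15)

/-- the domain -/
def Om : Set E := {z | |z 0| < 1 ∧ z 1 < 2 ∧ ∃ δ : ℝ, 0 < δ ∧ ∀ k, L k (z 0) + δ ≤ z 1}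

lemma sl_pos (k : ℕ) : 0 < sl k := by unfold sl; positivity

lemma sl_le (k : ℕ) : sl k ≤ 1 / 8 := by
  unfold sl
  have : (1 / 2 : ℝ) ^ k ≤ 1 := pow_le_one₀ (by norm_num) (by norm_num)
  linarith

lemma L_step (j : ℕ) (x : ℝ) : L j x - L (j + 1) x = sl (j + 1) * (x - (1 / 8) ^ (j + 1)) := by
  unfold L sl; ring

lemma L_sub (k : ℕ) (a b : ℝ) : L k a - L k b = sl k * (a - b) := by
  unfold L; ring

lemma L_max (k : ℕ) (x : ℝ) (h1 : (1 / 8) ^ (k + 1) ≤ x) (h2 : x ≤ (1 / 8) ^ k) (j : ℕ) :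
    L j x ≤ L k x := by
  have anti : ∀ a b : ℕ, a ≤ b → (1 / 8 : ℝ) ^ b ≤ (1 / 8) ^ a := fun a b h =>
    pow_le_pow_of_le_one (by norm_num) (by norm_num) h
  rcases le_total k j with h | h
  · induction j, h using Nat.le_induction with
    | base => exact le_rfl
    | succ j hj ih =>
      have := L_step j x
      have a := anti (k + 1) (j + 1) (by omega)
      have := mul_nonneg (sl_pos (j + 1)).le (show 0 ≤ x - (1 / 8) ^ (j + 1) by linarith)
      linarith
  · have : ∀ m, j ≤ m → m ≤ k → L j x ≤ L m x := by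
      intro m hm
      induction m, hm using Nat.le_induction with
      | base => exact fun _ => le_rfl
      | succ m hm ih =>
        intro hk
        have := L_step m x
        have a := anti (m + 1) k hk
        have := mul_nonneg (sl_pos (m + 1)).le (show 0 ≤ (1 / 8) ^ (m + 1) - x by linarith)
        have := ih (by omega)
        linarith
    exact this k h le_rfl

lemma L_le (k : ℕ) (x : ℝ) : L k x ≤ |x| / 8 := by
  unfold L
  have h1 := sl_pos k
  have h2 := sl_le k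
  have h3 : (0 : ℝ) < (1 / 8) ^ k := by positivity
  have h4 := le_abs_self x
  have h5 := abs_nonneg x
  nlinarith

lemma Om_lt {z : E} (h : z ∈ Om) (k : ℕ) : L k (z 0) < z 1 := by
  obtain ⟨-, -, δ, h1, h2⟩ := h
  linarith [h2 k]

lemma Om_pos {z : E} (h : z ∈ Om) : 0 < z 1 := by
  obtain ⟨h0, -, δ, h1, h2⟩ := h
  obtain ⟨k, hk⟩ := exists_pow_lt_of_lt_one h1 (show (1 / 2 : ℝ) < 1 by norm_num)
  have := h2 k
  unfold L sl at this
  have h3 : (1 / 8 : ℝ) ^ k ≤ 1 := pow_le_one₀ (by norm_num) (by norm_num)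
  have h4 : (0 : ℝ) < (1 / 2) ^ k := by positivity
  have h5 := (abs_lt.1 h0).1
  nlinarith

lemma mem_Om {z : E} (h0 : |z 0| < 1) (h1 : z 1 < 2) (h2 : |z 0| / 8 < z 1) : z ∈ Om :=
  ⟨h0, h1, z 1 - |z 0| / 8, by linarith, fun k => by linarith [L_le k (z 0)]⟩

lemma Om_open : IsOpen Om := by
  rw [isOpen_iff_mem_nhds]
  rintro z ⟨h0, h1, δ, h2, h3⟩
  have c0 : Continuous fun w : E => w 0 := by fun_prop
  have c1 : Continuous fun w : E => w 1 := by fun_prop
  have e1 : ∀ᶠ w in 𝓝 z, |w 0| < 1 := (c0.abs.tendsto z).eventually (gt_mem_nhds h0)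
  have e2 : ∀ᶠ w in 𝓝 z, w 1 < 2 := (c1.tendsto z).eventually (gt_mem_nhds h1)
  have e3 : ∀ᶠ w in 𝓝 z, |w 0 - z 0| < δ :=
    ((c0.sub continuous_const).abs.tendsto z).eventually (gt_mem_nhds (by simpa using h2))
  have e4 : ∀ᶠ w in 𝓝 z, z 1 - δ / 2 < w 1 :=
    (c1.tendsto z).eventually (lt_mem_nhds (by linarith))
  filter_upwards [e1, e2, e3, e4] with w a1 a2 a3 a4
  refine ⟨a1, a2, δ / 4, by linarith, fun k => ?_⟩
  have b1 := L_sub k (w 0) (z 0)
  have b2 := sl_pos k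
  have b3 := sl_le k
  have b4 := abs_lt.1 a3
  have := h3 k
  nlinarith

lemma Om_convex : Convex ℝ Om := by
  rintro z ⟨h0, h1, δ, h2, h3⟩ w ⟨g0, g1, ε, g2, g3⟩ a b ha hb hab
  have hb' : b = 1 - a := by linarith
  subst hb'
  have e0 : (a • z + (1 - a) • w) 0 = a * z 0 + (1 - a) * w 0 := by simp
  have e1 : (a • z + (1 - a) • w) 1 = a * z 1 + (1 - a) * w 1 := by simp
  have h0' := abs_lt.1 h0
  have g0' := abs_lt.1 g0
  have cv : ∀ x y m : ℝ, x < m → y < m → a * x + (1 - a) * y < m := by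
    intro x y m hx hy
    rcases ha.eq_or_lt with h | h
    · subst h; simpa using hy
    · nlinarith
  refine ⟨?_, ?_, min δ ε, lt_min h2 g2, fun k => ?_⟩
  · rw [e0, abs_lt]
    constructor
    · have := cv (-z 0) (-w 0) 1 (by linarith) (by linarith)
      linarith
    · exact cv _ _ _ h0'.2 g0'.2
  · rw [e1]; exact cv _ _ _ h1 g1
  · rw [e0, e1]
    have a1 := min_le_left δ ε
    have a2 := min_le_right δ ε
    have a3 := h3 k
    have a4 := g3 k
    have : L k (a * z 0 + (1 - a) * w 0) = a * L k (z 0) + (1 - a) * L k (w 0) := by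
      unfold L; ring
    rw [this]
    nlinarith

lemma Om_bdd : Bornology.IsBounded Om := by
  refine (Metric.isBounded_closedBall (x := (0 : E)) (r := 3)).subset fun z hz => ?_
  rw [mem_closedBall_zero_iff]
  apply le_of_sq_le_sq _ (by norm_num)
  rw [norm_sq2]
  have h0 := abs_lt.1 hz.1
  have h1 := hz.2.1
  have h2 := Om_pos hz
  nlinarith

lemma Om_ne : Om.Nonempty := ⟨pt 0 1, mem_Om (by simp) (by simp) (by simp)⟩

/-- length of the vector `(1, sl k)` -/
noncomputable def rho (k : ℕ) : ℝ := √(1 + sl k ^ 2)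

lemma rho_sq (k : ℕ) : rho k ^ 2 = 1 + sl k ^ 2 := Real.sq_sqrt (by positivity)

lemma rho_ge (k : ℕ) : 1 ≤ rho k := by
  unfold rho
  rw [Real.one_le_sqrt]
  nlinarith [sq_nonneg (sl k)]

lemma rho_le (k : ℕ) : rho k ≤ 2 := by
  have := rho_sq k
  have := sl_pos k
  have := sl_le k
  nlinarith [rho_ge k]

/-- the frame at a point of the side number `k` -/
noncomputable def fr (k : ℕ) (x0 : ℝ) : Fr :=
  ⟨pt x0 (L k x0), 1 / rho k, sl k / rho k, by
    have := rho_ge k
    have := rho_sq k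
    field_simp
    linarith⟩

lemma fr_c (k : ℕ) (x0 : ℝ) : 0 < (fr k x0).c ∧ (fr k x0).c ≤ 1 := by
  have := rho_ge k
  exact ⟨by show 0 < 1 / rho k; positivity, (div_le_one (by linarith)).2 this⟩

lemma fr_s (k : ℕ) (x0 : ℝ) : 0 < (fr k x0).s ∧ (fr k x0).s ≤ 1 / 8 := by
  have := rho_ge k
  have h1 := sl_pos k
  have h2 := sl_le k
  refine ⟨by show 0 < sl k / rho k; positivity, ?_⟩
  show sl k / rho k ≤ 1 / 8
  rw [div_le_iff₀ (by linarith)]
  linarith

lemma fr_gap (k : ℕ) (x0 x y : ℝ) :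
    (fr k x0).P (x, y) 1 - L k ((fr k x0).P (x, y) 0) = rho k * y := by
  rw [Fr.P0, Fr.P1]
  have h1 := rho_ge k
  have h2 := rho_sq k
  simp only [fr, pt0, pt1, L]
  field_simp
  rw [h2]
  ring

lemma fr_near (k : ℕ) (x0 x y r : ℝ) (hx : |x| ≤ r) (hy : |y| ≤ r) :
    |(fr k x0).P (x, y) 0 - x0| ≤ 2 * r ∧ |(fr k x0).P (x, y) 1 - L k x0| ≤ 2 * r := by
  rw [Fr.P0, Fr.P1]
  obtain ⟨c0, c1⟩ := fr_c k x0
  obtain ⟨s0, s1⟩ := fr_s k x0
  have e0 : (fr k x0).q 0 = x0 := rfl
  have e1 : (fr k x0).q 1 = L k x0 := rfl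
  have a := abs_le.1 hx
  have b := abs_le.1 hy
  rw [e0, e1, abs_le, abs_le]
  refine ⟨⟨?_, ?_⟩, ?_, ?_⟩ <;> nlinarith

lemma side (k : ℕ) (x0 r : ℝ) (hr : 0 < r) (h1 : (1 / 8) ^ (k + 1) ≤ x0 - 2 * r)
    (h2 : x0 + 2 * r < (1 / 8) ^ k) : Side Om (fr k x0) r r := by
  have hρ := rho_ge k
  have p1 : (0 : ℝ) < (1 / 8) ^ (k + 1) := by positivity
  have p2 : (1 / 8 : ℝ) ^ k ≤ 1 := pow_le_one₀ (by norm_num) (by norm_num)
  have hin : ∀ x y, |x| ≤ r → 0 < y → y ≤ r → (fr k x0).P (x, y) ∈ Om := by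
    intro x y hx y0 y1
    obtain ⟨a, b⟩ := fr_near k x0 x y r hx (by rwa [abs_of_pos y0])
    have a' := abs_le.1 a
    have b' := abs_le.1 b
    have c := L_le k x0
    rw [abs_of_pos (by linarith)] at c
    refine ⟨abs_lt.2 ⟨by linarith, by linarith⟩, by linarith, rho k * y, by positivity,
      fun j => ?_⟩
    have := L_max k ((fr k x0).P (x, y) 0) (by linarith) (by linarith) j
    have := fr_gap k x0 x y
    linarith
  have hout : ∀ x y, (fr k x0).P (x, y) ∈ Om → 0 < y := by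
    intro x y h
    have := Om_lt h k
    have h3 := fr_gap k x0 x y
    have : 0 < rho k * y := by linarith
    exact (pos_iff_pos_of_mul_pos this).1 (by linarith)
  intro x y hx hy
  refine ⟨⟨hout x y, fun h => hin x y hx h hy⟩, ?_, ?_⟩
  · intro h
    rw [Om_open.frontier_eq] at h
    have cl : IsClosed {z : E | L k (z 0) ≤ z 1} :=
      isClosed_le (by unfold L; fun_prop) (by fun_prop)
    have a : L k ((fr k x0).P (x, y) 0) ≤ (fr k x0).P (x, y) 1 :=
      closure_minimal (s := Om) (fun z hz => (Om_lt hz k).le) cl h.1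
    have b := fr_gap k x0 x y
    have c : 0 ≤ y := by
      by_contra hc
      push Not at hc
      nlinarith
    rcases c.eq_or_lt with c | c
    · exact c.symm
    · exact absurd (hin x y hx c hy) h.2
  · rintro rfl
    rw [Om_open.frontier_eq]
    refine ⟨?_, fun h => lt_irrefl _ (hout x 0 h)⟩
    have cP := (fr k x0).contP
    have t : Tendsto (fun y : ℝ => (fr k x0).P (x, y)) (𝓝[>] 0) (𝓝 ((fr k x0).P (x, 0))) :=
      (Continuous.tendsto (by fun_prop) (0 : ℝ)).mono_left nhdsWithin_le_nhds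
    refine mem_closure_of_tendsto t ?_
    filter_upwards [Ioc_mem_nhdsGT hr] with y hy
    exact hin x y hx hy.1 hy.2

end Pool.Agent.H232Z.Rob
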