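import Pool.Agent.H232Z.Rob.Grad

/-! The contradiction from three consecutive sides. -/

set_option autoImplicit false

open MeasureTheory Set Filter Topology

namespace Pool.Agent.H232Z.Rob

lemma coord_le (a : E) : |a 0| ≤ ‖a‖ ∧ |a 1| ≤ ‖a‖ := by
  have := norm_sq2 a
  exact ⟨abs_le_of_sq_le_sq (by nlinarith [sq_nonneg (a 1)]) (norm_nonneg a),
    abs_le_of_sq_le_sq (by nlinarith [sq_nonneg (a 0)]) (norm_nonneg a)⟩

theorem two_sided {α lam S : ℝ} {u : E → ℝ} (H : Sol Om α lam S u) : ∃ m N C : ℝ, 0 < m ∧ 0 ≤ N ∧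
    0 ≤ C ∧ ∀ l : ℝ, 0 < l → l ≤ 1 / 64 → ∃ u0 w0 w1 : ℝ, m ≤ u0 ∧ |w0| ≤ N ∧ |w1| ≤ N ∧
      ∀ z ∈ Om, 0 < z 0 → z 0 ≤ l → z 1 ≤ l →
        |u z - (u0 + w0 * (z 0 - l) + w1 * (z 1 - 2 * l))| ≤ C * l ^ 2 := by
  obtain ⟨m, N, K, hm, hN, hK, h⟩ := local_est H
  have hS : 0 ≤ S := (abs_nonneg _).trans (H.ub _ yp_mem)
  have hl := H.lam0
  have lip1 : ∀ a ∈ Q, ∀ b ∈ Q, u a - u b ≤ (2 * N + K) * ‖a - b‖ := by
    intro a ha b hb
    obtain ⟨-, w0, w1, a0, a1, a2⟩ := h b hb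
    have b1 := a2 a ha
    obtain ⟨c0, c1⟩ := coord_le (a - b)
    rw [PiLp.sub_apply] at c0 c1
    have d0 : |w0 * (a 0 - b 0)| ≤ N * ‖a - b‖ := by
      rw [abs_mul]; exact mul_le_mul a0 c0 (abs_nonneg _) hN
    have d1 : |w1 * (a 1 - b 1)| ≤ N * ‖a - b‖ := by
      rw [abs_mul]; exact mul_le_mul a1 c1 (abs_nonneg _) hN
    have n1 : ‖a - b‖ ≤ 1 := by
      apply le_of_sq_le_sq _ (by norm_num)
      rw [norm_sq2, PiLp.sub_apply, PiLp.sub_apply]
      have e1 := Om_pos ha.1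
      have e2 := Om_pos hb.1
      obtain ⟨-, e3, e4, e5⟩ := ha
      obtain ⟨-, e6, e7, e8⟩ := hb
      nlinarith
    have n2 : ‖a - b‖ ^ 2 ≤ ‖a - b‖ := by nlinarith [norm_nonneg (a - b)]
    nlinarith [(abs_le.1 d0).2, (abs_le.1 d1).2, mul_le_mul_of_nonneg_left n2 hK]
  have lip : ∀ a ∈ Q, ∀ b ∈ Q, |u a - u b| ≤ (2 * N + K) * ‖a - b‖ := by
    intro a ha b hb
    have h1 := lip1 a ha b hb
    have h2 := lip1 b hb a ha
    rw [norm_sub_rev] at h2
    exact abs_le.2 ⟨by linarith, h1⟩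
  have semi : ∀ a ∈ Q, ∀ b ∈ Q, ∀ θ : ℝ, 0 ≤ θ → θ ≤ 1 →
      (1 - θ) * u a + θ * u b - u ((1 - θ) • a + θ • b) ≤ K * ‖a - b‖ ^ 2 := by
    intro a ha b hb θ t0 t1
    obtain ⟨-, w0, w1, -, -, a2⟩ := h _ (Q_convex ha hb (show 0 ≤ 1 - θ by linarith) t0 (by ring))
    have b1 := a2 a ha
    have b2 := a2 b hb
    have e0 : ((1 - θ) • a + θ • b) 0 = (1 - θ) * a 0 + θ * b 0 := by simp
    have e1 : ((1 - θ) • a + θ • b) 1 = (1 - θ) * a 1 + θ * b 1 := by simp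
    rw [norm_sq2, PiLp.sub_apply, PiLp.sub_apply, e0, e1] at b1 b2
    rw [norm_sq2, PiLp.sub_apply, PiLp.sub_apply]
    have c1 := mul_le_mul_of_nonneg_left b1 (show 0 ≤ 1 - θ by linarith)
    have c2 := mul_le_mul_of_nonneg_left b2 t0
    have c3 : 0 ≤ (1 - θ * (1 - θ)) * (K * ((a 0 - b 0) ^ 2 + (a 1 - b 1) ^ 2)) :=
      mul_nonneg (by nlinarith) (by positivity)
    nlinarith
  refine ⟨m, N, 5 * K + 40 * (9 * (720 * K + lam * S)), hm, hN, by positivity, fun l l0 l1 => ?_⟩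
  have q0 : pt l (2 * l) ∈ Q := by
    refine ⟨mem_Om ?_ ?_ ?_, ?_, ?_, ?_⟩ <;> simp only [pt0, pt1, abs_of_pos l0] <;> linarith
  obtain ⟨a, w0, w1, a0, a1, a2⟩ := h _ q0
  refine ⟨_, w0, w1, a, a0, a1, fun z hz z0 z1 z2 => ?_⟩
  have z3 := Om_pos hz
  have q1 : z ∈ Q := ⟨hz, z0, by linarith, by linarith⟩
  have q2 : pt (2 * l - z 0) (4 * l - z 1) ∈ Q := by
    have : 0 < 2 * l - z 0 := by linarith
    refine ⟨mem_Om ?_ ?_ ?_, ?_, ?_, ?_⟩ <;> simp only [pt0, pt1, abs_of_pos this] <;> linarith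
  have b1 := a2 _ q1
  have b2 := a2 _ q2
  have b3 := three_lower H (fun z hz => hz.1) Q_open Q_convex hK (by positivity) lip semi z q1 _ q2
    (1 / 2) (by norm_num) (by norm_num)
  have e : (1 - 1 / 2 : ℝ) • z + (1 / 2 : ℝ) • pt (2 * l - z 0) (4 * l - z 1) = pt l (2 * l) :=
    ext2 (by simp; ring) (by simp; ring)
  rw [e] at b3
  rw [norm_sq2, PiLp.sub_apply, PiLp.sub_apply] at b1 b2 b3
  simp only [pt0, pt1] at b1 b2 b3
  obtain ⟨C, hC⟩ : ∃ C, C = 9 * (720 * K + lam * S) := ⟨_, rfl⟩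
  have C0 : 0 ≤ C := by rw [hC]; positivity
  rw [← hC] at b3 ⊢
  have d : (z 0 - l) ^ 2 + (z 1 - 2 * l) ^ 2 ≤ 5 * l ^ 2 := by nlinarith
  have d1 := mul_le_mul_of_nonneg_left d hK
  have d2 := mul_le_mul_of_nonneg_left d C0
  have d3 : 0 ≤ C * l ^ 2 := by positivity
  rw [abs_le]
  constructor <;> nlinarith

theorem no_sol {α lam S : ℝ} {u : E → ℝ} (H : Sol Om α lam S u) : False := by
  obtain ⟨m, N, C, hm, hN, hC, h⟩ := two_sided H
  have hS : 0 ≤ S := (abs_nonneg _).trans (H.ub _ yp_mem)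
  have hl := H.lam0
  have hα := H.al0
  obtain ⟨C1, hC1⟩ : ∃ C1, C1 = (3 + α) * (186 * 512 * C + lam * S) + 5 * α * N := ⟨_, rfl⟩
  have C0 : 0 ≤ C1 := by rw [hC1]; positivity
  obtain ⟨k0, hk0⟩ := exists_pow_lt_of_lt_one
    (show 0 < α * m / (1024 * (12 * C1 + 1)) by positivity) (show (1 / 2 : ℝ) < 1 by norm_num)
  obtain ⟨k, hk, k2⟩ : ∃ k : ℕ, (1 / 2 : ℝ) ^ k < α * m / (1024 * (12 * C1 + 1)) ∧ 2 ≤ k :=
    ⟨k0 + 2, lt_of_le_of_lt (pow_le_pow_of_le_one (by norm_num) (by norm_num) (by omega)) hk0,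
      by omega⟩
  obtain ⟨l, hl'⟩ : ∃ l : ℝ, l = (1 / 8) ^ k := ⟨_, rfl⟩
  have l0 : 0 < l := by rw [hl']; positivity
  have l1 : l ≤ 1 / 64 := by
    rw [hl']
    exact (pow_le_pow_of_le_one (by norm_num) (by norm_num) k2).trans (by norm_num)
  obtain ⟨u0, w0, w1, a, a0, a1, a2⟩ := h l l0 l1
  have key : ∀ j : ℕ, l / 64 ≤ (1 / 8) ^ j → (1 / 8) ^ j ≤ l →
      |α * u0 * rho j - (w1 - sl j * w0)| ≤ 2 * (C1 * l) := by
    intro j j0 j1
    obtain ⟨b, hb⟩ : ∃ b : ℝ, b = (1 / 8) ^ j := ⟨_, rfl⟩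
    have hb' : (1 / 8 : ℝ) ^ (j + 1) = b / 8 := by rw [hb]; ring
    rw [← hb] at j0 j1
    have b0 : 0 < b := by linarith
    have hs := side j (b / 2) (b / 8) (by linarith) (by rw [hb']; linarith)
      (by rw [← hb]; linarith)
    have σ1 := sl_pos j
    have σ2 := sl_le j
    have L0 : 0 ≤ L j (b / 2) := by
      unfold L
      rw [← hb]
      exact mul_nonneg σ1.le (by linarith)
    have L1 : L j (b / 2) ≤ b / 16 := by
      have := L_le j (b / 2)
      rw [abs_of_pos (by linarith)] at this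
      linarith
    obtain ⟨c0, c1⟩ := fr_c j (b / 2)
    obtain ⟨s0, s1⟩ := fr_s j (b / 2)
    have ρ1 := rho_ge j
    have ρ2 := rho_le j
    have ec : (fr j (b / 2)).c * rho j = 1 := by
      show 1 / rho j * rho j = 1
      field_simp
    have es : (fr j (b / 2)).s * rho j = sl j := by
      show sl j / rho j * rho j = sl j
      field_simp
    have est := bd_est H _ (show 0 < b / 8 by linarith) hs
      (u0 + w0 * (b / 2 - l) + w1 * (L j (b / 2) - 2 * l))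
      (w0 * (fr j (b / 2)).c + w1 * (fr j (b / 2)).s)
      (-w0 * (fr j (b / 2)).s + w1 * (fr j (b / 2)).c) (C * l ^ 2) (fun x y hx y0 y1 => by
        obtain ⟨n0, n1⟩ := fr_near j (b / 2) x y (b / 8) hx.le (by rw [abs_of_pos y0]; linarith)
        have n0' := abs_le.1 n0
        have n1' := abs_le.1 n1
        have := a2 _ ((hs x y hx.le y1.le).1.2 y0) (by linarith) (by linarith) (by linarith)
        rw [Fr.P0, Fr.P1] at this
        have e0 : (fr j (b / 2)).q 0 = b / 2 := rfl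
        have e1 : (fr j (b / 2)).q 1 = L j (b / 2) := rfl
        rw [e0, e1] at this
        convert this using 2
        ring)
    generalize (fr j (b / 2)).c = c at *
    generalize (fr j (b / 2)).s = s at *
    generalize L j (b / 2) = y at *
    have f1 : |w0 * c + w1 * s| ≤ 2 * N := by
      have g0 : |w0 * c| ≤ N * 1 := by
        rw [abs_mul, abs_of_pos c0]; exact mul_le_mul a0 c1 c0.le hN
      have g1 : |w1 * s| ≤ N * 1 := by
        rw [abs_mul, abs_of_pos s0]; exact mul_le_mul a1 (by linarith) s0.le hN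
      linarith [abs_add_le (w0 * c) (w1 * s)]
    have f2 : |w0 * (b / 2 - l) + w1 * (y - 2 * l)| ≤ 3 * N * l := by
      have g0 : |w0 * (b / 2 - l)| ≤ N * l := by
        rw [abs_mul]
        exact mul_le_mul a0 (abs_le.2 ⟨by linarith, by linarith⟩) (abs_nonneg _) hN
      have g1 : |w1 * (y - 2 * l)| ≤ N * (2 * l) := by
        rw [abs_mul]
        exact mul_le_mul a1 (abs_le.2 ⟨by linarith, by linarith⟩) (abs_nonneg _) hN
      linarith [abs_add_le (w0 * (b / 2 - l)) (w1 * (y - 2 * l))]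
    have f3 : 186 * (C * l ^ 2) / (b / 8) ≤ 186 * 512 * C * l := by
      rw [div_le_iff₀ (by linarith)]
      have : C * l * l ≤ C * l * (64 * b) :=
        mul_le_mul_of_nonneg_left (by linarith) (by positivity)
      nlinarith
    have f4 : lam * S * (b / 8) ≤ lam * S * l :=
      mul_le_mul_of_nonneg_left (by linarith) (by positivity)
    have f5 : (3 + α * (b / 8)) * (186 * (C * l ^ 2) / (b / 8) + lam * S * (b / 8)) ≤
        (3 + α) * ((186 * 512 * C + lam * S) * l) :=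
      mul_le_mul (by nlinarith) (by linarith) (by positivity) (by positivity)
    have f6 : α * |w0 * c + w1 * s| * (b / 8) ≤ α * (2 * N) * l :=
      mul_le_mul (mul_le_mul_of_nonneg_left f1 hα.le) (by linarith) (by linarith) (by positivity)
    have f7 : |α * u0 - (-w0 * s + w1 * c)| ≤ C1 * l := by
      have g1 := abs_le.1 (est.trans (add_le_add f5 f6))
      have g2 := abs_le.1 f2
      have g3 := mul_le_mul_of_nonneg_left g2.1 hα.le
      have g4 := mul_le_mul_of_nonneg_left g2.2 hα.le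
      rw [hC1, abs_le]
      constructor <;> linarith
    have e : α * u0 * rho j - (w1 - sl j * w0) = (α * u0 - (-w0 * s + w1 * c)) * rho j := by
      linear_combination (-w0) * es + w1 * ec
    rw [e, abs_mul, abs_of_pos (by linarith : 0 < rho j), mul_comm 2]
    exact mul_le_mul f7 ρ2 (by linarith) (by positivity)
  have e1 : (1 / 8 : ℝ) ^ (k + 1) = l / 8 := by rw [hl']; ring
  have e2 : (1 / 8 : ℝ) ^ (k + 2) = l / 64 := by rw [hl']; ring
  have k0' := (abs_le.1 (key k (by rw [← hl']; linarith) (by rw [← hl']))).2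
  have k1' := (abs_le.1 (key (k + 1) (by rw [e1]; linarith) (by rw [e1]; linarith))).1
  have k2' := (abs_le.1 (key (k + 2) (by rw [e2]) (by rw [e2]; linarith))).2
  obtain ⟨s, hs⟩ : ∃ s, s = sl (k + 2) := ⟨_, rfl⟩
  have s1 : sl (k + 1) = 2 * s := by rw [hs]; unfold sl; ring
  have s2 : sl k = 4 * s := by rw [hs]; unfold sl; ring
  have s0 : 0 < s := hs ▸ sl_pos _
  have s3 : 4 * s ≤ 1 / 8 := s2 ▸ sl_le k
  have r2 := rho_ge (k + 2)
  have r1 : rho (k + 1) ≤ 1 + 2 * s ^ 2 := by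
    apply le_of_sq_le_sq _ (by positivity)
    rw [rho_sq, s1]
    nlinarith [sq_nonneg (s ^ 2)]
  have r0 : 1 + 7 * s ^ 2 ≤ rho k := by
    apply le_of_sq_le_sq _ (by linarith [rho_ge k])
    rw [rho_sq, s2]
    have : s ^ 2 ≤ 1 / 1024 := by nlinarith
    nlinarith [sq_nonneg s]
  rw [← hs] at k2'
  rw [s1] at k1'
  rw [s2] at k0'
  have au : 0 < α * u0 := mul_pos hα (by linarith)
  have t1 : α * u0 * s ^ 2 ≤ 12 * (C1 * l) := by
    have := mul_le_mul_of_nonneg_left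
      (show s ^ 2 ≤ 2 * rho (k + 2) - 3 * rho (k + 1) + rho k by linarith) au.le
    linarith
  have t2 : α * m * s ^ 2 ≤ α * u0 * s ^ 2 := by gcongr
  have t3 : l = (1 / 2) ^ k * (1024 * s ^ 2) := by
    rw [hl', hs, show (1 / 8 : ℝ) = 1 / 2 * (1 / 2) * (1 / 2) by norm_num, mul_pow, mul_pow]
    unfold sl
    ring
  rw [lt_div_iff₀ (by positivity)] at hk
  have t4 := mul_lt_mul_of_pos_right hk (show 0 < s ^ 2 by positivity)
  have t5 : (1 / 2 : ℝ) ^ k * (1024 * (12 * C1 + 1)) * s ^ 2 = 12 * (C1 * l) + l := by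
    rw [t3]; ring
  linarith

theorem never_logConcave : ∃ Ω : Set E, IsOpen Ω ∧ Convex ℝ Ω ∧ Bornology.IsBounded Ω ∧
    Ω.Nonempty ∧ ∀ α : ℝ, 0 < α → ∀ u : E → ℝ, IsFirstRobin Ω α u →
      ¬ ConcaveOn ℝ Ω fun x => Real.log (u x) := by
  refine ⟨Om, Om_open, Om_convex, Om_bdd, Om_ne, fun α hα u h hv => ?_⟩
  obtain ⟨lam, S, H⟩ := exists_sol Om_open Om_bdd Om_ne hα h hv
  exact no_sol H

end Pool.Agent.H232Z.Rob
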