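import Pool.Agent.H232Z.Rob.Defs

/-! Rotated coordinates, integration by parts on rectangles, limits of pairings. -/

set_option autoImplicit false

open MeasureTheory Set Filter Topology
open scoped InnerProductSpace

namespace Pool.Agent.H232Z.Rob

/-- the point with coordinates `x`, `y` -/
noncomputable def pt (x y : ℝ) : E := !₂[x, y]

@[simp] lemma pt0 (x y : ℝ) : pt x y 0 = x := rfl
@[simp] lemma pt1 (x y : ℝ) : pt x y 1 = y := rfl

lemma ext2 {a b : E} (h0 : a 0 = b 0) (h1 : a 1 = b 1) : a = b := by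
  ext i; fin_cases i
  · exact h0
  · exact h1

lemma inner2 (a b : E) : ⟪a, b⟫_ℝ = a 0 * b 0 + a 1 * b 1 := by
  rw [PiLp.inner_apply, Fin.sum_univ_two]
  simp [mul_comm]

lemma norm_sq2 (a : E) : ‖a‖ ^ 2 = a 0 ^ 2 + a 1 ^ 2 := by
  rw [EuclideanSpace.norm_sq_eq, Fin.sum_univ_two]
  simp

/-- a frame: origin and a unit vector -/
structure Fr where
  q : E
  c : ℝ
  s : ℝ
  h : c ^ 2 + s ^ 2 = 1

namespace Fr

variable (f : Fr)

/-- tangent vector -/
noncomputable def t : E := pt f.c f.s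
/-- normal vector -/
noncomputable def n : E := pt (-f.s) f.c
/-- point with frame coordinates -/
noncomputable def P (p : ℝ × ℝ) : E := f.q + p.1 • f.t + p.2 • f.n
/-- first frame coordinate -/
noncomputable def X (z : E) : ℝ := ⟪z - f.q, f.t⟫_ℝ
/-- second frame coordinate -/
noncomputable def Y (z : E) : ℝ := ⟪z - f.q, f.n⟫_ℝ

lemma P0 (p : ℝ × ℝ) : f.P p 0 = f.q 0 + f.c * p.1 - f.s * p.2 := by
  simp [P, t, n]; ring

lemma P1 (p : ℝ × ℝ) : f.P p 1 = f.q 1 + f.s * p.1 + f.c * p.2 := by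
  simp [P, t, n]; ring

@[simp] lemma XP (p : ℝ × ℝ) : f.X (f.P p) = p.1 := by
  simp only [X, inner2, PiLp.sub_apply, P0, P1, t, pt0, pt1]
  linear_combination p.1 * f.h

@[simp] lemma YP (p : ℝ × ℝ) : f.Y (f.P p) = p.2 := by
  simp only [Y, inner2, PiLp.sub_apply, P0, P1, n, pt0, pt1]
  linear_combination p.2 * f.h

lemma PXY (z : E) : f.P (f.X z, f.Y z) = z := by
  apply ext2
  · simp only [X, Y, inner2, PiLp.sub_apply, P0, t, n, pt0, pt1]
    linear_combination (z 0 - f.q 0) * f.h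
  · simp only [X, Y, inner2, PiLp.sub_apply, P1, t, n, pt0, pt1]
    linear_combination (z 1 - f.q 1) * f.h

lemma contP : Continuous f.P := by unfold P; fun_prop
lemma contX : Continuous f.X := by unfold X; fun_prop
lemma contY : Continuous f.Y := by unfold Y; fun_prop

lemma dist_sq (p p' : ℝ × ℝ) : ‖f.P p - f.P p'‖ ^ 2 = (p.1 - p'.1) ^ 2 + (p.2 - p'.2) ^ 2 := by
  rw [norm_sq2, PiLp.sub_apply, PiLp.sub_apply, P0, P0, P1, P1]
  linear_combination ((p.1 - p'.1) ^ 2 + (p.2 - p'.2) ^ 2) * f.h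

/-- the frame map as a homeomorphism -/
noncomputable def homeo : ℝ × ℝ ≃ₜ E where
  toFun := f.P
  invFun z := (f.X z, f.Y z)
  left_inv p := by simp
  right_inv := f.PXY
  continuous_toFun := f.contP
  continuous_invFun := f.contX.prodMk f.contY

/-- the rotation of the frame -/
noncomputable def rot : E ≃ₗᵢ[ℝ] E where
  toFun z := pt (f.c * z 0 - f.s * z 1) (f.s * z 0 + f.c * z 1)
  invFun z := pt (f.c * z 0 + f.s * z 1) (-f.s * z 0 + f.c * z 1)
  map_add' a b := ext2 (by simp; ring) (by simp; ring)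
  map_smul' r a := ext2 (by simp; ring) (by simp; ring)
  left_inv z := ext2 (by simp only [pt0, pt1]; linear_combination z 0 * f.h)
    (by simp only [pt0, pt1]; linear_combination z 1 * f.h)
  right_inv z := ext2 (by simp only [pt0, pt1]; linear_combination z 0 * f.h)
    (by simp only [pt0, pt1]; linear_combination z 1 * f.h)
  norm_map' z := by
    rw [← sq_eq_sq₀ (norm_nonneg _) (norm_nonneg _), norm_sq2, norm_sq2]
    show (f.c * z 0 - f.s * z 1) ^ 2 + (f.s * z 0 + f.c * z 1) ^ 2 = _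
    linear_combination (z 0 ^ 2 + z 1 ^ 2) * f.h

lemma mp : MeasurePreserving f.P volume volume := by
  have h1 : MeasurePreserving (MeasurableEquiv.finTwoArrow (α := ℝ)).symm volume volume :=
    (volume_preserving_finTwoArrow ℝ).symm _
  have h2 := PiLp.volume_preserving_toLp (Fin 2)
  have h3 := f.rot.measurePreserving
  have h4 := measurePreserving_add_left (volume : Measure E) f.q
  have := h4.comp (h3.comp (h2.comp h1))
  convert this using 1
  funext p
  apply ext2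
  · rw [P0]
    show _ = f.q 0 + (f.c * p.1 - f.s * p.2)
    ring
  · rw [P1]
    show _ = f.q 1 + (f.s * p.1 + f.c * p.2)
    ring

lemma integral_P (h : E → ℝ) : ∫ z, h z = ∫ p : ℝ × ℝ, h (f.P p) :=
  (f.mp.integral_comp f.homeo.measurableEmbedding h).symm

lemma isometry_line : Isometry fun x : ℝ => f.P (x, 0) := by
  apply Isometry.of_dist_eq
  intro a b
  rw [dist_eq_norm, Real.dist_eq, ← sq_eq_sq₀ (norm_nonneg _) (abs_nonneg _), dist_sq, sq_abs]
  simp

lemma hasDerivAt_x (w : E → ℝ) (hw : Differentiable ℝ w) (x y : ℝ) :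
    HasDerivAt (fun x => w (f.P (x, y))) ⟪gradient w (f.P (x, y)), f.t⟫_ℝ x := by
  have h1 : HasDerivAt (fun x : ℝ => f.P (x, y)) f.t x := by
    unfold P
    simpa using ((hasDerivAt_id x).smul_const f.t |>.const_add f.q).add_const (y • f.n)
  have := (hw (f.P (x, y))).hasGradientAt.hasFDerivAt.comp_hasDerivAt x h1
  rw [InnerProductSpace.toDual_apply_apply] at this
  exact this

lemma hasDerivAt_y (w : E → ℝ) (hw : Differentiable ℝ w) (x y : ℝ) :
    HasDerivAt (fun y => w (f.P (x, y))) ⟪gradient w (f.P (x, y)), f.n⟫_ℝ y := by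
  have h1 : HasDerivAt (fun y : ℝ => f.P (x, y)) f.n y := by
    unfold P
    simpa using ((hasDerivAt_id y).smul_const f.n |>.const_add (f.q + x • f.t))
  have := (hw (f.P (x, y))).hasGradientAt.hasFDerivAt.comp_hasDerivAt y h1
  rw [InnerProductSpace.toDual_apply_apply] at this
  exact this

end Fr

lemma integrableOn_rect (k : ℝ × ℝ → ℝ) (hk : Continuous k) (a b c d : ℝ) :
    IntegrableOn k (Ioo a b ×ˢ Ioo c d) volume :=
  (hk.continuousOn.integrableOn_compact (isCompact_Icc.prod isCompact_Icc)).mono_set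
    (prod_mono Ioo_subset_Icc_self Ioo_subset_Icc_self)

lemma ioo_eq (k : ℝ → ℝ) {a b : ℝ} (h : a ≤ b) : ∫ x in Ioo a b, k x = ∫ x in a..b, k x := by
  rw [intervalIntegral.integral_of_le h, integral_Ioc_eq_integral_Ioo]

lemma ibp (w w1 w2 : ℝ × ℝ → ℝ) (cw : Continuous w) (c1 : Continuous w1) (c2 : Continuous w2)
    (h1 : ∀ x y, HasDerivAt (fun x => w (x, y)) (w1 (x, y)) x)
    (h2 : ∀ x y, HasDerivAt (fun y => w (x, y)) (w2 (x, y)) y)
    (F F1 F2 G G1 G2 : ℝ → ℝ) (cF : Continuous F) (cF2 : Continuous F2) (cG : Continuous G)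
    (cG2 : Continuous G2) (dF : ∀ x, HasDerivAt F1 (F2 x) x) (dG : ∀ x, HasDerivAt G1 (G2 x) x)
    (r c : ℝ) (hr : 0 ≤ r) (hc : 0 ≤ c) (e1 : F1 r = 0) (e2 : F1 (-r) = 0) (e3 : G1 c = 0) :
    ∫ p in Ioo (-r) r ×ˢ Ioo 0 c, (w1 p * (F1 p.1 * G p.2) + w2 p * (F p.1 * G1 p.2)) =
      -(∫ p in Ioo (-r) r ×ˢ Ioo 0 c, w p * (F2 p.1 * G p.2 + F p.1 * G2 p.2)) -
        G1 0 * ∫ x in Ioo (-r) r, w (x, 0) * F x := by
  have cF1 : Continuous F1 := continuous_iff_continuousAt.2 fun x => (dF x).continuousAt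
  have cG1 : Continuous G1 := continuous_iff_continuousAt.2 fun x => (dG x).continuousAt
  have a1 : ∫ p in Ioo (-r) r ×ˢ Ioo 0 c, (w1 p * F1 p.1 + w p * F2 p.1) * G p.2 = 0 := by
    have hi := integrableOn_rect (fun p => (w1 p * F1 p.1 + w p * F2 p.1) * G p.2)
      (by fun_prop) (-r) r 0 c
    rw [IntegrableOn, Measure.volume_eq_prod, ← Measure.prod_restrict] at hi
    rw [Measure.volume_eq_prod, ← Measure.prod_restrict, integral_prod_symm _ hi]
    have : ∀ y, ∫ x in Ioo (-r) r, (w1 (x, y) * F1 x + w (x, y) * F2 x) * G y = 0 := by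
      intro y
      rw [integral_mul_const, ioo_eq _ (by linarith),
        intervalIntegral.integral_eq_sub_of_hasDerivAt (f := fun x => w (x, y) * F1 x)
          (fun x _ => (h1 x y).mul (dF x)) (Continuous.intervalIntegrable (by fun_prop) _ _)]
      simp [e1, e2]
    simp [this]
  have a2 : ∫ p in Ioo (-r) r ×ˢ Ioo 0 c, (w2 p * G1 p.2 + w p * G2 p.2) * F p.1 =
      -(G1 0 * ∫ x in Ioo (-r) r, w (x, 0) * F x) := by
    have hi := integrableOn_rect (fun p => (w2 p * G1 p.2 + w p * G2 p.2) * F p.1)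
      (by fun_prop) (-r) r 0 c
    rw [Measure.volume_eq_prod] at hi ⊢
    rw [setIntegral_prod _ hi]
    have : ∀ x, ∫ y in Ioo 0 c, (w2 (x, y) * G1 y + w (x, y) * G2 y) * F x =
        -(G1 0 * (w (x, 0) * F x)) := by
      intro x
      rw [integral_mul_const, ioo_eq _ hc,
        intervalIntegral.integral_eq_sub_of_hasDerivAt (f := fun y => w (x, y) * G1 y)
          (fun y _ => (h2 x y).mul (dG y)) (Continuous.intervalIntegrable (by fun_prop) _ _)]
      simp only [e3]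
      ring
    simp only [this]
    rw [integral_neg, integral_const_mul]
  have a3 : (∫ p in Ioo (-r) r ×ˢ Ioo 0 c, (w1 p * (F1 p.1 * G p.2) + w2 p * (F p.1 * G1 p.2))) +
      (∫ p in Ioo (-r) r ×ˢ Ioo 0 c, w p * (F2 p.1 * G p.2 + F p.1 * G2 p.2)) =
      (∫ p in Ioo (-r) r ×ˢ Ioo 0 c, (w1 p * F1 p.1 + w p * F2 p.1) * G p.2) +
      ∫ p in Ioo (-r) r ×ˢ Ioo 0 c, (w2 p * G1 p.2 + w p * G2 p.2) * F p.1 := by
    rw [← integral_add (integrableOn_rect _ (by fun_prop) _ _ _ _)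
      (integrableOn_rect _ (by fun_prop) _ _ _ _),
      ← integral_add (integrableOn_rect _ (by fun_prop) _ _ _ _)
      (integrableOn_rect _ (by fun_prop) _ _ _ _)]
    congr 1
    funext p
    ring
  linarith

lemma tendsto_pair {X V : Type} [MeasurableSpace X] [NormedAddCommGroup V]
    [InnerProductSpace ℝ V] {μ : Measure X} (f : ℕ → X → V) (g h : X → V)
    (hf : ∀ k, MemLp (f k) 2 μ) (hg : MemLp g 2 μ) (hh : MemLp h 2 μ)
    (lim : Tendsto (fun k => eLpNorm (f k - g) 2 μ) atTop (𝓝 0)) :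
    Tendsto (fun k => ∫ x, ⟪f k x, h x⟫_ℝ ∂μ) atTop (𝓝 (∫ x, ⟪g x, h x⟫_ℝ ∂μ)) := by
  have h1 := (Lp.tendsto_Lp_iff_tendsto_eLpNorm'' f hf g hg).2 lim
  have h2 := h1.inner (𝕜 := ℝ) (tendsto_const_nhds (x := hh.toLp h))
  have key : ∀ (a : X → V) (ha : MemLp a 2 μ),
      ⟪ha.toLp a, hh.toLp h⟫_ℝ = ∫ x, ⟪a x, h x⟫_ℝ ∂μ := by
    intro a ha
    rw [L2.inner_def]
    apply integral_congr_ae
    filter_upwards [ha.coeFn_toLp, hh.coeFn_toLp] with x e1 e2
    rw [e1, e2]
  simpa only [key] using h2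

end Pool.Agent.H232Z.Rob
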