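import Pool.Agent.H232Z.Rob.Domain

/-! Supergradients of the logarithm are bounded near the accumulation point. -/

set_option autoImplicit false

open MeasureTheory Set Filter Topology

namespace Pool.Agent.H232Z.Rob

lemma supergrad {Ω : Set E} (ho : IsOpen Ω) {v : E → ℝ} (hv : ConcaveOn ℝ Ω v) {z : E}
    (hz : z ∈ Ω) : ∃ p0 p1 : ℝ, ∀ w ∈ Ω, v w ≤ v z + p0 * (w 0 - z 0) + p1 * (w 1 - z 1) := by
  have hc := hv.continuousOn ho
  have so : IsOpen {p : E × ℝ | p.1 ∈ Ω ∧ p.2 < v p.1} := by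
    have h1 : ContinuousOn (fun p : E × ℝ => v p.1 - p.2) (Prod.fst ⁻¹' Ω) :=
      (hc.comp continuous_fst.continuousOn (fun p hp => hp)).sub continuous_snd.continuousOn
    have := h1.isOpen_inter_preimage (ho.preimage continuous_fst) (isOpen_Ioi (a := (0 : ℝ)))
    convert this using 1
    ext p
    simp [sub_pos]
  obtain ⟨f, hf⟩ := geometric_hahn_banach_open_point hv.convex_strict_hypograph so
    (x := (z, v z)) (by simp)
  obtain ⟨A, B, C, e⟩ : ∃ A B C : ℝ, ∀ (w : E) (t : ℝ), f (w, t) = w 0 * A + w 1 * B + t * C := by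
    refine ⟨f (pt 1 0, 0), f (pt 0 1, 0), f (0, 1), fun w t => ?_⟩
    have : (w, t) = w 0 • (pt 1 0, (0 : ℝ)) + w 1 • (pt 0 1, (0 : ℝ)) + t • ((0 : E), (1 : ℝ)) := by
      refine Prod.ext (ext2 ?_ ?_) ?_ <;> simp
    rw [this, map_add, map_add, map_smul, map_smul, map_smul]
    simp
  have hC : 0 < C := by
    have := hf (z, v z - 1) ⟨hz, by simp⟩
    rw [e, e] at this
    linarith
  refine ⟨-A / C, -B / C, fun w hw => ?_⟩
  apply le_of_forall_lt_imp_le_of_dense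
  intro t ht
  have := hf (w, t) ⟨hw, ht⟩
  rw [e, e] at this
  have e2 : v z + -A / C * (w 0 - z 0) + -B / C * (w 1 - z 1) =
      (v z * C - A * (w 0 - z 0) - B * (w 1 - z 1)) / C := by field_simp; ring
  rw [e2, le_div_iff₀ hC]
  linarith

lemma cone {p0 p1 e C D x y : ℝ} (hC : 0 ≤ C) (hD : 0 ≤ D) (he : |e| ≤ 1 / 4) (hx : |x| ≤ 1 / 8)
    (y0 : 0 ≤ y) (y1 : y ≤ 1 / 2) (h1 : p0 * e + p1 ≤ C)
    (h2 : -D ≤ p0 * (1 / 2 - x) + p1 * (1 - y)) (h3 : -D ≤ p0 * (-(1 / 2) - x) + p1 * (1 - y)) :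
    |p0| ≤ 8 * (C + D) ∧ |p1| ≤ 8 * (C + D) := by
  have he' := abs_le.1 he
  have hx' := abs_le.1 hx
  have a0 := abs_nonneg p0
  have a1 : p1 ≤ C + |p0| / 4 := by
    have : |p0 * e| ≤ |p0| * (1 / 4) := by rw [abs_mul]; exact mul_le_mul_of_nonneg_left he a0
    linarith [(abs_le.1 this).1]
  have a2 : p1 * (1 - y) ≤ C + |p0| / 4 := by
    rcases le_total p1 0 with h | h <;> nlinarith
  have a3 : |p0| * (3 / 8) - D ≤ p1 * (1 - y) := by
    rcases le_total p0 0 with h | h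
    · rw [abs_of_nonpos h]; nlinarith
    · rw [abs_of_nonneg h]; nlinarith
  have a4 : |p0| ≤ 8 * (C + D) := by linarith
  refine ⟨a4, abs_le.2 ⟨?_, by linarith⟩⟩
  rcases le_total p1 0 with h | h <;> nlinarith

/-- the part of the domain near the accumulation point -/
def Q : Set E := {z | z ∈ Om ∧ 0 < z 0 ∧ z 0 < 1 / 8 ∧ z 1 < 1 / 2}

lemma Q_open : IsOpen Q := by
  have c0 : Continuous fun w : E => w 0 := by fun_prop
  have c1 : Continuous fun w : E => w 1 := by fun_prop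
  exact Om_open.inter ((isOpen_lt continuous_const c0).inter
    ((isOpen_lt c0 continuous_const).inter (isOpen_lt c1 continuous_const)))

lemma Q_convex : Convex ℝ Q := by
  rintro z ⟨h0, h1, h2, h3⟩ w ⟨g0, g1, g2, g3⟩ a b ha hb hab
  have hb' : b = 1 - a := by linarith
  refine ⟨Om_convex h0 g0 ha hb hab, ?_⟩
  subst hb'
  have e0 : (a • z + (1 - a) • w) 0 = a * z 0 + (1 - a) * w 0 := by simp
  have e1 : (a • z + (1 - a) • w) 1 = a * z 1 + (1 - a) * w 1 := by simp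
  have cv : ∀ x y m : ℝ, x < m → y < m → a * x + (1 - a) * y < m := by
    intro x y m hx hy
    rcases ha.eq_or_lt with h | h
    · subst h; simpa using hy
    · nlinarith
  rw [e0, e1]
  refine ⟨?_, cv _ _ _ h2 g2, cv _ _ _ h3 g3⟩
  have := cv (-z 0) (-w 0) 0 (by linarith) (by linarith)
  linarith

lemma yp_mem : pt (1 / 2) 1 ∈ Om :=
  mem_Om (by rw [pt0, abs_lt]; constructor <;> norm_num) (by simp)
    (by rw [pt0, pt1, abs_of_pos (by norm_num)]; norm_num)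

lemma ym_mem : pt (-(1 / 2)) 1 ∈ Om :=
  mem_Om (by rw [pt0, abs_lt]; constructor <;> norm_num) (by simp)
    (by rw [pt0, pt1, abs_neg, abs_of_pos (by norm_num)]; norm_num)

theorem grad_bd {α lam S : ℝ} {u : E → ℝ} (H : Sol Om α lam S u) : ∃ M : ℝ, 0 ≤ M ∧
    ∀ z ∈ Q, ∀ p0 p1 : ℝ, (∀ w ∈ Om, Real.log (u w) ≤
      Real.log (u z) + p0 * (w 0 - z 0) + p1 * (w 1 - z 1)) → |p0| ≤ M ∧ |p1| ≤ M := by
  have hα := H.al0
  have ub : ∀ z ∈ Om, Real.log (u z) ≤ Real.log S := fun z hz =>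
    Real.log_le_log (H.pos z hz) ((le_abs_self _).trans (H.ub z hz))
  obtain ⟨D, hD, D1, D2⟩ : ∃ D : ℝ, 0 ≤ D ∧ Real.log S - Real.log (u (pt (1 / 2) 1)) ≤ D ∧
      Real.log S - Real.log (u (pt (-(1 / 2)) 1)) ≤ D :=
    ⟨max _ _, le_max_of_le_left (sub_nonneg.2 (ub _ yp_mem)), le_max_left _ _, le_max_right _ _⟩
  have cn : ∀ z ∈ Om, |z 0| ≤ 1 / 8 → z 1 ≤ 1 / 2 → ∀ p0 p1 e C : ℝ, 0 ≤ C → |e| ≤ 1 / 4 →
      (∀ w ∈ Om, Real.log (u w) ≤ Real.log (u z) + p0 * (w 0 - z 0) + p1 * (w 1 - z 1)) →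
      p0 * e + p1 ≤ C → |p0| ≤ 8 * (C + D) ∧ |p1| ≤ 8 * (C + D) := by
    intro z hz a1 a2 p0 p1 e C hC he hp h
    have b1 := hp _ yp_mem
    have b2 := hp _ ym_mem
    have b3 := ub z hz
    simp only [pt0, pt1] at b1 b2
    exact cone hC hD he a1 (Om_pos hz).le a2 h (by linarith) (by linarith)
  refine ⟨8 * (2 * (8 * (2 * α + D)) + D), by positivity, ?_⟩
  rintro z ⟨hz, x0, x1, y1⟩ p0 p1 hp
  obtain ⟨n, n1, n2⟩ := exists_nat_pow_near_of_lt_one x0 (by linarith)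
    (show (0 : ℝ) < 1 / 8 by norm_num) (by norm_num)
  have τ0 := Om_lt hz n
  have pw : (0 : ℝ) < (1 / 8) ^ (n + 1) := by positivity
  obtain ⟨r, r0, r1, r2⟩ : ∃ r : ℝ, 0 < r ∧ 128 * r ≤ z 1 - L n (z 0) ∧
      8 * r ≤ z 0 - (1 / 8) ^ (n + 1) := by
    refine ⟨min ((z 1 - L n (z 0)) / 128) ((z 0 - (1 / 8) ^ (n + 1)) / 8),
      lt_min (by linarith) (by linarith), ?_, ?_⟩
    · linarith [min_le_left ((z 1 - L n (z 0)) / 128) ((z 0 - (1 / 8) ^ (n + 1)) / 8)]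
    · linarith [min_le_right ((z 1 - L n (z 0)) / 128) ((z 0 - (1 / 8) ^ (n + 1)) / 8)]
  have hs := side n (z 0 - 4 * r) r r0 (by linarith) (by linarith)
  have ns := normal_slope H _ r0 hs (h1 := r / 2) (h2 := r) (by linarith) (by linarith) le_rfl
  have m1 := (hs 0 r (by simpa using r0.le) le_rfl).1.2 r0
  have m2 := (hs 0 (r / 2) (by simpa using r0.le) (by linarith)).1.2 (by linarith)
  obtain ⟨c0, c1⟩ := fr_c n (z 0 - 4 * r)
  obtain ⟨s0, s1⟩ := fr_s n (z 0 - 4 * r)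
  have ρ1 := rho_ge n
  have ρ2 := rho_le n
  have σ1 := sl_pos n
  have σ2 := sl_le n
  have ec : (fr n (z 0 - 4 * r)).c * rho n = 1 := by
    show 1 / rho n * rho n = 1
    field_simp
  have es : (fr n (z 0 - 4 * r)).s * rho n = sl n := by
    show sl n / rho n * rho n = sl n
    field_simp
  have P0 : ∀ y, (fr n (z 0 - 4 * r)).P (0, y) 0 = z 0 - 4 * r - (fr n (z 0 - 4 * r)).s * y := by
    intro y; rw [Fr.P0]; simp [fr]
  have P1 : ∀ y, (fr n (z 0 - 4 * r)).P (0, y) 1 =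
      L n (z 0) - sl n * (4 * r) + (fr n (z 0 - 4 * r)).c * y := by
    intro y
    rw [Fr.P1]
    have := L_sub n (z 0) (z 0 - 4 * r)
    have e : (fr n (z 0 - 4 * r)).q 1 = L n (z 0 - 4 * r) := rfl
    rw [e]
    linarith
  generalize fr n (z 0 - 4 * r) = f at *
  obtain ⟨q0, q1, hq⟩ := supergrad Om_open H.conc m1
  have b1 := hq _ m2
  have b2 := hq _ hz
  have b3 := hp _ m1
  rw [P0, P0, P1, P1] at b1
  have sr : 0 < f.s * r := by positivity
  have cr : 0 < f.c * r := by positivity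
  have σr : 0 < sl n * r := by positivity
  have sr' : f.s * r ≤ r / 8 := by nlinarith
  have cr' : f.c * r ≤ r := by nlinarith
  have b4 : -q0 * f.s + q1 * f.c ≤ α := by
    apply le_of_mul_le_mul_right _ (show 0 < r / 2 by linarith)
    linarith
  have b5 : q0 * -sl n + q1 ≤ 2 * α := by
    have := mul_le_mul_of_nonneg_right b4 (show 0 ≤ rho n by linarith)
    have e : (-q0 * f.s + q1 * f.c) * rho n = q0 * -(f.s * rho n) + q1 * (f.c * rho n) := by ring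
    rw [e, ec, es] at this
    nlinarith
  obtain ⟨g0, g1⟩ := cn _ m1 (by rw [P0, abs_le]; constructor <;> linarith)
    (by rw [P1]; linarith) q0 q1 (-sl n) (2 * α) (by positivity)
    (by rw [abs_neg, abs_of_pos σ1]; linarith) hq b5
  rw [P0, P1] at b2 b3
  obtain ⟨dx, hdx⟩ : ∃ dx, dx = 4 * r + f.s * r := ⟨_, rfl⟩
  obtain ⟨dy, hdy⟩ : ∃ dy, dy = z 1 - (L n (z 0) - sl n * (4 * r) + f.c * r) := ⟨_, rfl⟩
  have dx0 : 0 < dx := by linarith
  have dy0 : 0 < dy := by linarith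
  have dxy : 4 * dx ≤ dy := by linarith
  have b6 : p0 * dx + p1 * dy ≤ q0 * dx + q1 * dy := by
    rw [hdx, hdy]; linarith
  have g0' := (abs_le.1 g0).2
  have g1' := (abs_le.1 g1).2
  have hM : 0 ≤ 8 * (2 * α + D) := by positivity
  refine cn z hz (abs_le.2 ⟨by linarith, x1.le⟩) y1.le p0 p1 (dx / dy) _ (by positivity) ?_ hp ?_
  · rw [abs_of_pos (by positivity), div_le_iff₀ dy0]; linarith
  · apply le_of_mul_le_mul_right _ dy0
    have e : (p0 * (dx / dy) + p1) * dy = p0 * dx + p1 * dy := by field_simp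
    rw [e]
    nlinarith

lemma exp_quad {t T : ℝ} (hT : 0 ≤ T) (h : t ≤ T) : Real.exp t ≤ 1 + t + t ^ 2 * Real.exp T := by
  have h1 : Real.exp t - 1 ≤ t * Real.exp t := by
    have := mul_le_mul_of_nonneg_right (Real.add_one_le_exp (-t)) (Real.exp_pos t).le
    rw [← Real.exp_add, neg_add_cancel, Real.exp_zero] at this
    linarith
  have h2 := Real.add_one_le_exp t
  have h3 : Real.exp t ≤ Real.exp T := Real.exp_le_exp.2 h
  have h4 : 1 ≤ Real.exp T := Real.one_le_exp hT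
  rcases le_total t 0 with h5 | h5
  · nlinarith [mul_le_mul_of_nonneg_left h4 (sq_nonneg t)]
  · nlinarith [mul_le_mul_of_nonneg_left h3 (sq_nonneg t), mul_le_mul_of_nonneg_left h1 h5]

theorem local_est {α lam S : ℝ} {u : E → ℝ} (H : Sol Om α lam S u) : ∃ m N K : ℝ, 0 < m ∧ 0 ≤ N ∧
    0 ≤ K ∧ ∀ z ∈ Q, m ≤ u z ∧ ∃ w0 w1 : ℝ, |w0| ≤ N ∧ |w1| ≤ N ∧ ∀ a ∈ Q,
      u a ≤ u z + w0 * (a 0 - z 0) + w1 * (a 1 - z 1) + K * ‖a - z‖ ^ 2 := by
  obtain ⟨M, hM, h⟩ := grad_bd H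
  have hS : 0 ≤ S := (abs_nonneg _).trans (H.ub _ yp_mem)
  refine ⟨Real.exp (Real.log (u (pt (1 / 2) 1)) - 2 * M), S * M, S * (2 * M ^ 2 * Real.exp M),
    Real.exp_pos _, by positivity, by positivity, fun z hz => ?_⟩
  obtain ⟨p0, p1, hp⟩ := supergrad Om_open H.conc hz.1
  obtain ⟨a0, a1⟩ := h z hz p0 p1 hp
  have b0 := abs_le.1 a0
  have b1 := abs_le.1 a1
  have uz := H.pos z hz.1
  have uS : u z ≤ S := (le_abs_self _).trans (H.ub z hz.1)
  have z1 := Om_pos hz.1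
  obtain ⟨hz0, z2, z3, z4⟩ := hz
  refine ⟨?_, u z * p0, u z * p1, ?_, ?_, ?_⟩
  · rw [← Real.exp_log uz, Real.exp_le_exp]
    have := hp _ yp_mem
    simp only [pt0, pt1] at this
    nlinarith
  · rw [abs_mul, abs_of_pos uz]; exact mul_le_mul uS a0 (abs_nonneg _) hS
  · rw [abs_mul, abs_of_pos uz]; exact mul_le_mul uS a1 (abs_nonneg _) hS
  · rintro a ⟨ha, c2, c3, c4⟩
    have c1 := Om_pos ha
    obtain ⟨t, ht⟩ : ∃ t, t = p0 * (a 0 - z 0) + p1 * (a 1 - z 1) := ⟨_, rfl⟩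
    have d0 : |p0 * (a 0 - z 0)| ≤ M * (1 / 2) := by
      rw [abs_mul]
      exact mul_le_mul a0 (abs_le.2 ⟨by linarith, by linarith⟩) (abs_nonneg _) hM
    have d1 : |p1 * (a 1 - z 1)| ≤ M * (1 / 2) := by
      rw [abs_mul]
      exact mul_le_mul a1 (abs_le.2 ⟨by linarith, by linarith⟩) (abs_nonneg _) hM
    have tM : t ≤ M := by linarith [(abs_le.1 d0).2, (abs_le.1 d1).2]
    have e1 : u a ≤ u z * Real.exp t := by
      rw [← Real.exp_log uz, ← Real.exp_add, ← Real.exp_log (H.pos a ha), Real.exp_le_exp]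
      linarith [hp a ha]
    have e2 : t ^ 2 ≤ 2 * M ^ 2 * ‖a - z‖ ^ 2 := by
      rw [norm_sq2, PiLp.sub_apply, PiLp.sub_apply, ht]
      have f0 : p0 ^ 2 ≤ M ^ 2 := sq_le_sq' b0.1 b0.2
      have f1 : p1 ^ 2 ≤ M ^ 2 := sq_le_sq' b1.1 b1.2
      nlinarith [sq_nonneg (p0 * (a 0 - z 0) - p1 * (a 1 - z 1)),
        mul_le_mul_of_nonneg_right f0 (sq_nonneg (a 0 - z 0)),
        mul_le_mul_of_nonneg_right f1 (sq_nonneg (a 1 - z 1))]
    have e3 := mul_le_mul_of_nonneg_left (exp_quad hM tM) uz.le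
    have e4 : u z * (t ^ 2 * Real.exp M) ≤ S * (2 * M ^ 2 * ‖a - z‖ ^ 2 * Real.exp M) :=
      mul_le_mul uS (mul_le_mul_of_nonneg_right e2 (Real.exp_pos M).le) (by positivity) hS
    have e5 : u z * t = u z * p0 * (a 0 - z 0) + u z * p1 * (a 1 - z 1) := by rw [ht]; ring
    linarith

end Pool.Agent.H232Z.Rob
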