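import Pool.Agent.H232Z.Rob.Slope

/-! Two-sided second order control and the boundary condition for an affine approximation. -/

set_option autoImplicit false

open MeasureTheory Set Filter Topology

namespace Pool.Agent.H232Z.Rob

lemma Fr.P_comb (f : Fr) (p p' : ℝ × ℝ) (θ : ℝ) :
    (1 - θ) • f.P p + θ • f.P p' = f.P ((1 - θ) * p.1 + θ * p'.1, (1 - θ) * p.2 + θ * p'.2) := by
  unfold Fr.P
  module

lemma V_le {Ω Q : Set E} {u : E → ℝ} {S K : ℝ} (hc : ContinuousOn u Ω) (hb : ∀ x ∈ Ω, |u x| ≤ S)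
    (hQ : Q ⊆ Ω) (hK0 : 0 ≤ K)
    (hK : ∀ a ∈ Q, ∀ b ∈ Q, ∀ θ : ℝ, 0 ≤ θ → θ ≤ 1 →
      (1 - θ) * u a + θ * u b - u ((1 - θ) • a + θ • b) ≤ K * ‖a - b‖ ^ 2)
    {f : Fr} {r c : ℝ} (hr : 0 < r) (hR : Rect Q f r c) {y : ℝ} (hy : y ∈ Ioo 0 c) :
    W u f r (psi r).F2 y ≤ 240 * K * r := by
  have hR' : Rect Ω f r c := fun x y a b c => hQ (hR x y a b c)
  have c2 := (psi r).c2
  have sym : ∀ x x1, |x| ≤ x1 → x1 < r → u (f.P (x1, y)) + u (f.P (-x1, y)) ≤
      u (f.P (x, y)) + u (f.P (-x, y)) + 8 * K * r ^ 2 := by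
    intro x x1 h1 h2
    have h0 : 0 ≤ x1 := (abs_nonneg x).trans h1
    rcases h0.eq_or_lt with h0 | h0
    · subst h0
      have : x = 0 := abs_nonpos_iff.1 h1
      subst this
      have : 0 ≤ 8 * K * r ^ 2 := by positivity
      linarith
    have m1 := hR x1 y (by rwa [abs_of_pos h0]) hy.1 hy.2
    have m2 := hR (-x1) y (by rwa [abs_neg, abs_of_pos h0]) hy.1 hy.2
    have hx := abs_le.1 h1
    have t0 : 0 ≤ (x + x1) / (2 * x1) := div_nonneg (by linarith) (by linarith)
    have t1 : (x + x1) / (2 * x1) ≤ 1 := (div_le_one (by linarith)).2 (by linarith)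
    have a1 := hK _ m2 _ m1 _ t0 t1
    have a2 := hK _ m1 _ m2 _ t0 t1
    rw [f.P_comb, f.dist_sq] at a1 a2
    have e1 : (1 - (x + x1) / (2 * x1)) * -x1 + (x + x1) / (2 * x1) * x1 = x := by
      field_simp; ring
    have e2 : (1 - (x + x1) / (2 * x1)) * x1 + (x + x1) / (2 * x1) * -x1 = -x := by
      field_simp; ring
    have e3 : (1 - (x + x1) / (2 * x1)) * y + (x + x1) / (2 * x1) * y = y := by ring
    simp only [e1, e2, e3] at a1 a2
    have : K * x1 ^ 2 ≤ K * r ^ 2 :=
      mul_le_mul_of_nonneg_left (pow_le_pow_left₀ h0.le h2.le 2) hK0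
    nlinarith
  obtain ⟨x0, p0, p1, p2⟩ : ∃ x0 : ℝ, 0 < x0 ∧ x0 < r ∧ x0 ^ 2 = r ^ 2 / 5 := by
    refine ⟨√(r ^ 2 / 5), Real.sqrt_pos.2 (by positivity), ?_, Real.sq_sqrt (by positivity)⟩
    rw [Real.sqrt_lt' hr]
    nlinarith [sq_pos_of_pos hr]
  set σ := u (f.P (x0, y)) + u (f.P (-x0, y)) with hσ
  have i1 := intX hc hb hR' _ c2 hy
  have i2 : IntegrableOn (fun x => u (f.P (-x, y)) * (psi r).F2 x) (Ioo (-r) r) volume := by
    have hin : ∀ x ∈ Ioo (-r) r, f.P (-x, y) ∈ Ω :=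
      fun x hx => hR' (-x) y (by rw [abs_neg]; exact abs_lt.2 hx) hy.1 hy.2
    have cP := f.contP
    refine Integrable.bdd_mul (c := S) (intOn_Ioo _ c2 _ _)
      ((hc.comp (f := fun x => f.P (-x, y)) (by fun_prop) hin).aestronglyMeasurable
        measurableSet_Ioo) ?_
    exact (ae_restrict_mem measurableSet_Ioo).mono fun p hp => hb _ (hin p hp)
  have e1 : ∫ x in Ioo (-r) r, u (f.P (-x, y)) * (psi r).F2 x = W u f r (psi r).F2 y := by
    unfold W
    rw [ioo_eq _ (by linarith), ioo_eq _ (by linarith)]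
    have := intervalIntegral.integral_comp_neg (a := -r) (b := r)
      (fun x => u (f.P (x, y)) * (psi r).F2 x)
    simp only [psi_even, neg_neg] at this
    exact this
  have e2 : ∫ x in Ioo (-r) r, (u (f.P (x, y)) * (psi r).F2 x + u (f.P (-x, y)) * (psi r).F2 x) ≤
      ∫ x in Ioo (-r) r, ((σ + 0 * x) * (psi r).F2 x + 240 * K) := by
    refine setIntegral_mono_on (i1.add i2) (intOn_Ioo _ (by fun_prop) _ _) measurableSet_Ioo ?_
    intro x hx
    have hx' := abs_lt.2 hx
    have b1 := abs_le.1 (psi2_abs hr x hx')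
    have b2 : 8 * K * r ^ 2 * (30 / r ^ 2) = 240 * K := by field_simp; ring
    have b3 : 0 ≤ 8 * K * r ^ 2 := by positivity
    obtain ⟨s, s0, s1, s2, -, s3⟩ := psi_in hr x hx'
    rcases le_total |x| x0 with h | h
    · have a := sym x x0 h p1
      have : x ^ 2 ≤ x0 ^ 2 := by rw [← sq_abs x]; exact pow_le_pow_left₀ (abs_nonneg x) h 2
      have hs : s ≤ 1 / 5 := by
        by_contra hh
        push Not at hh
        nlinarith [sq_pos_of_pos hr]
      have neg : (psi r).F2 x ≤ 0 := by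
        rw [s3]
        exact div_nonpos_of_nonpos_of_nonneg
          (mul_nonpos_of_nonneg_of_nonpos (by linarith) (by linarith)) (by positivity)
      nlinarith [mul_le_mul_of_nonneg_left b1.1 b3]
    · have a := sym x0 |x| (by rwa [abs_of_pos p0]) hx'
      have a' : u (f.P (x, y)) + u (f.P (-x, y)) ≤ σ + 8 * K * r ^ 2 := by
        rcases abs_choice x with h' | h' <;> rw [h'] at a
        · exact a
        · rw [neg_neg] at a; linarith
      have : x0 ^ 2 ≤ x ^ 2 := by rw [← sq_abs x]; exact pow_le_pow_left₀ p0.le h 2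
      have hs : 1 / 5 ≤ s := by
        by_contra hh
        push Not at hh
        nlinarith [sq_pos_of_pos hr]
      have pos : 0 ≤ (psi r).F2 x := by
        rw [s3]
        exact div_nonneg (mul_nonneg (by linarith) (by linarith)) (by positivity)
      nlinarith [mul_le_mul_of_nonneg_left b1.2 b3]
  rw [integral_add i1 i2, e1, integral_add (intOn_Ioo _ (by fun_prop) _ _)
    (intOn_Ioo _ continuous_const _ _), psi_aff hr, setIntegral_const, Real.volume_real_Ioo_of_le (by linarith), smul_eq_mul] at e2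
  change W u f r (psi r).F2 y + _ ≤ _ at e2
  linarith

lemma W_near {Ω : Set E} {u : E → ℝ} {S : ℝ} (hc : ContinuousOn u Ω) (hb : ∀ x ∈ Ω, |u x| ≤ S)
    {f : Fr} {r c : ℝ} (hr : 0 < r) (hR : Rect Ω f r c) {y : ℝ} (hy : y ∈ Ioo 0 c) (a b δ : ℝ)
    (h : ∀ x, |x| < r → |u (f.P (x, y)) - (a + b * x)| ≤ δ) :
    |W u f r (psi r).F y - (a * (∫ x in Ioo (-r) r, (psi r).F x) +
      b * ∫ x in Ioo (-r) r, x * (psi r).F x)| ≤ δ * ∫ x in Ioo (-r) r, (psi r).F x := by
  have c0 := (psi r).c0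
  have e : ∀ a : ℝ, ∫ x in Ioo (-r) r, (a * (psi r).F x + b * (x * (psi r).F x)) =
      a * (∫ x in Ioo (-r) r, (psi r).F x) + b * ∫ x in Ioo (-r) r, x * (psi r).F x := by
    intro a
    rw [integral_add (intOn_Ioo _ (by fun_prop) _ _) (intOn_Ioo _ (by fun_prop) _ _),
      integral_const_mul, integral_const_mul]
  have h1 := W_le hc hb hR _ (fun x => (a + δ) * (psi r).F x + b * (x * (psi r).F x)) c0
    (by fun_prop) hy (fun x hx => by
      nlinarith [mul_le_mul_of_nonneg_right (abs_le.1 (h x hx)).2 (psi_pos hr x hx).le])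
  have h2 := le_W hc hb hR _ (fun x => (a - δ) * (psi r).F x + b * (x * (psi r).F x)) c0
    (by fun_prop) hy (fun x hx => by
      nlinarith [mul_le_mul_of_nonneg_right (abs_le.1 (h x hx)).1 (psi_pos hr x hx).le])
  rw [e] at h1 h2
  rw [abs_le]
  constructor <;> linarith

lemma J_ramp {Ω : Set E} {u : E → ℝ} {S : ℝ} (hc : ContinuousOn u Ω) (hb : ∀ x ∈ Ω, |u x| ≤ S)
    {f : Fr} {r c ε a : ℝ} (hR : Rect Ω f r c) (hε : 0 < ε) (h1 : ε ≤ a) (h2 : a + ε ≤ c)
    (k : ℝ → ℝ) (hk : Continuous k) (w δ : ℝ)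
    (h : ∀ y ∈ Ioo 0 c, |y - a| < ε → |W u f r k y - w| ≤ δ) :
    |J u f r c k (ramp ε a).F2 - w| ≤ δ := by
  have c2 := (ramp ε a).c2
  have e : ∀ m : ℝ, ∫ y in Ioo 0 c, (m + 0 * y) * (ramp ε a).F2 y = m := by
    intro m
    rw [Prof.aff_int _ _ _ _ _ (by linarith), (ramp_right hε a c h2).2.1,
      (ramp_left hε a 0 (by linarith)).2.1]
    ring
  have z : ∀ y, ¬ |y - a| < ε → (ramp ε a).F2 y = 0 := by
    intro y hy
    rcases le_abs'.1 (not_lt.1 hy) with h | h
    · exact (ramp_left hε a y (by linarith)).2.2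
    · exact (ramp_right hε a y (by linarith)).2.2
  have a1 := J_le hc hb hR k _ (fun y => (w + δ + 0 * y) * (ramp ε a).F2 y) hk c2 (by fun_prop)
    (fun y hy => by
      by_cases h' : |y - a| < ε
      · exact mul_le_mul_of_nonneg_right (by linarith [(abs_le.1 (h y hy h')).2])
          (ramp2_nonneg hε a y)
      · simp [z y h'])
  have a2 := le_J hc hb hR k _ (fun y => (w - δ + 0 * y) * (ramp ε a).F2 y) hk c2 (by fun_prop)
    (fun y hy => by
      by_cases h' : |y - a| < ε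
      · exact mul_le_mul_of_nonneg_right (by linarith [(abs_le.1 (h y hy h')).1])
          (ramp2_nonneg hε a y)
      · simp [z y h'])
  rw [e] at a1 a2
  rw [abs_le]
  constructor <;> linarith

theorem three_lower {Ω Q : Set E} {α lam S K L : ℝ} {u : E → ℝ} (H : Sol Ω α lam S u)
    (hQ : Q ⊆ Ω) (hQo : IsOpen Q) (hQc : Convex ℝ Q) (hK0 : 0 ≤ K) (hL0 : 0 ≤ L)
    (hL : ∀ a ∈ Q, ∀ b ∈ Q, |u a - u b| ≤ L * ‖a - b‖)
    (hK : ∀ a ∈ Q, ∀ b ∈ Q, ∀ θ : ℝ, 0 ≤ θ → θ ≤ 1 →
      (1 - θ) * u a + θ * u b - u ((1 - θ) • a + θ • b) ≤ K * ‖a - b‖ ^ 2)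
    (a : E) (ha : a ∈ Q) (b : E) (hb : b ∈ Q) (θ : ℝ) (t0 : 0 ≤ θ) (t1 : θ ≤ 1) :
    -(9 * (720 * K + lam * S) * ‖a - b‖ ^ 2) ≤
      (1 - θ) * u a + θ * u b - u ((1 - θ) • a + θ • b) := by
  have hS : 0 ≤ S := (abs_nonneg _).trans (H.ub _ (hQ ha))
  have hl := H.lam0
  by_cases hab : a = b
  · subst hab
    rw [← add_smul]
    simp
    ring_nf
    exact le_rfl
  set d := ‖a - b‖ with hd
  have d0 : 0 < d := norm_pos_iff.2 (sub_ne_zero.2 hab)
  have hcs : IsCompact (segment ℝ a b) := by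
    rw [segment_eq_image]
    exact isCompact_Icc.image (by fun_prop)
  obtain ⟨δ, hδ, hth⟩ := hcs.exists_thickening_subset_open hQo
    (hQc.segment_subset ha hb)
  apply le_of_forall_pos_le_add
  intro η hη
  obtain ⟨ε, e0, e1, e2, e3⟩ : ∃ ε : ℝ, 0 < ε ∧ ε ≤ d ∧ 2 * ε ≤ δ ∧ 4 * L * ε ≤ η := by
    refine ⟨min d (min (δ / 2) (η / (4 * L + 1))), by positivity, min_le_left _ _, ?_, ?_⟩
    · have : min d (min (δ / 2) (η / (4 * L + 1))) ≤ δ / 2 :=
        (min_le_right _ _).trans (min_le_left _ _)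
      linarith
    · have h1 : min d (min (δ / 2) (η / (4 * L + 1))) ≤ η / (4 * L + 1) :=
        (min_le_right _ _).trans (min_le_right _ _)
      have h2 : 4 * L * (η / (4 * L + 1)) ≤ η := by
        rw [← mul_div_assoc, div_le_iff₀ (by positivity)]; nlinarith
      nlinarith
  have hd2 : d ^ 2 = (a 0 - b 0) ^ 2 + (a 1 - b 1) ^ 2 := by rw [hd, norm_sq2]; rfl
  let f : Fr := ⟨a - (ε / d) • (b - a), (b 1 - a 1) / d, -((b 0 - a 0) / d), by
    field_simp; linarith⟩
  have hP : ∀ s : ℝ, f.P (0, ε + s * d) = (1 - s) • a + s • b := by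
    intro s
    apply ext2
    · rw [f.P0]; simp [f]; field_simp; ring
    · rw [f.P1]; simp [f]; field_simp; ring
  have hR : Rect Q f ε (d + 2 * ε) := by
    intro x y hx y0 y1
    apply hth
    rw [Metric.mem_thickening_iff]
    obtain ⟨s, s0, s1, s2⟩ : ∃ s : ℝ, 0 ≤ s ∧ s ≤ 1 ∧ |y - (ε + s * d)| ≤ ε := by
      rcases le_total y ε with h | h
      · exact ⟨0, le_rfl, zero_le_one, abs_le.2 ⟨by linarith, by linarith⟩⟩
      rcases le_total y (ε + d) with h' | h'
      · refine ⟨(y - ε) / d, div_nonneg (by linarith) d0.le, (div_le_one d0).2 (by linarith), ?_⟩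
        rw [div_mul_cancel₀ _ d0.ne']
        simpa using e0.le
      · exact ⟨1, zero_le_one, le_rfl, abs_le.2 ⟨by linarith, by linarith⟩⟩
    refine ⟨(1 - s) • a + s • b, ⟨1 - s, s, by linarith, s0, by ring, rfl⟩, ?_⟩
    rw [← hP, dist_eq_norm]
    apply lt_of_pow_lt_pow_left₀ 2 hδ.le
    rw [f.dist_sq]
    have b1 : x ^ 2 < ε ^ 2 := by
      rw [← sq_abs x]; exact pow_lt_pow_left₀ hx (abs_nonneg x) (by norm_num)
    have b2 : (y - (ε + s * d)) ^ 2 ≤ ε ^ 2 := by
      rw [← sq_abs]; exact pow_le_pow_left₀ (abs_nonneg _) s2 2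
    simp only [sub_zero]
    nlinarith
  have hR' : Rect Ω f ε (d + 2 * ε) := fun x y a b c => hQ (hR x y a b c)
  set I := ∫ x in Ioo (-ε) ε, (psi ε).F x with hI
  have I0 : ε / 3 ≤ I := psi_int e0
  have Ip : 0 < I := by linarith
  let B := comb (1 - θ) θ (ramp ε ε) (ramp ε (ε + d)) (ramp ε (ε + θ * d))
  have td : θ * d ≤ d := by nlinarith
  have td0 : 0 ≤ θ * d := by positivity
  have id := H.idIn f (psi ε) B ε (d + 2 * ε) e0.le (by linarith) (psi_supp e0) (by
    intro y hy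
    rcases hy with hy | hy
    · obtain ⟨a1, a2, a3⟩ := ramp_right e0 ε y (by linarith)
      obtain ⟨b1, b2, b3⟩ := ramp_right e0 (ε + d) y (by linarith)
      obtain ⟨c1, c2, c3⟩ := ramp_right e0 (ε + θ * d) y (by linarith)
      simp only [B, comb, a1, a2, a3, b1, b2, b3, c1, c2, c3]
      refine ⟨by ring, by ring, by ring⟩
    · obtain ⟨a1, a2, a3⟩ := ramp_left e0 ε y (by linarith)
      obtain ⟨b1, b2, b3⟩ := ramp_left e0 (ε + d) y (by linarith)
      obtain ⟨c1, c2, c3⟩ := ramp_left e0 (ε + θ * d) y (by linarith)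
      simp only [B, comb, a1, a2, a3, b1, b2, b3, c1, c2, c3]
      refine ⟨by ring, by ring, by ring⟩) hR'
  have c0 := (psi ε).c0
  have c2 := (psi ε).c2
  have G0 : ∀ y, 0 ≤ B.F y := by
    intro y
    have := (ramp_convex e0).2 (mem_univ (y - ε)) (mem_univ (y - (ε + d)))
      (show 0 ≤ 1 - θ by linarith) t0 (by ring)
    simp only [smul_eq_mul] at this
    have e : (1 - θ) * (y - ε) + θ * (y - (ε + d)) = y - (ε + θ * d) := by ring
    rw [e] at this
    simp only [B, comb, ramp_shift ε ε, ramp_shift ε (ε + d), ramp_shift ε (ε + θ * d)]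
    linarith
  have G1 : ∀ y ∈ Ioo 0 (d + 2 * ε), B.F y ≤ 3 * d := by
    intro y hy
    have a1 : (ramp ε ε).F y ≤ 3 * d :=
      ((ramp_mono e0 ε) hy.2.le).trans (by rw [(ramp_right e0 ε _ (by linarith)).1]; linarith)
    have a2 : (ramp ε (ε + d)).F y ≤ 3 * d :=
      ((ramp_mono e0 _) hy.2.le).trans (by rw [(ramp_right e0 _ _ (by linarith)).1]; linarith)
    have a3 : 0 ≤ (ramp ε (ε + θ * d)).F y := by
      rw [← (ramp_left e0 (ε + θ * d) 0 (by linarith)).1]
      exact ramp_mono e0 _ hy.1.le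
    simp only [B, comb]
    nlinarith
  have ec : ∀ m : ℝ, ∫ _ in Ioo 0 (d + 2 * ε), m = m * (d + 2 * ε) := fun m => by
    rw [setIntegral_const, Real.volume_real_Ioo_of_le (by linarith), smul_eq_mul]; ring
  have j1 := J_le H.cont H.ub hR' _ _ (fun _ => 720 * K * I * (3 * d)) c2 B.c0 continuous_const
    (fun y hy => by
      have := V_le H.cont H.ub hQ hK0 hK e0 hR hy
      have h2 : W u f ε (psi ε).F2 y ≤ 720 * K * I := by nlinarith
      exact (mul_le_mul_of_nonneg_right h2 (G0 y)).trans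
        (mul_le_mul_of_nonneg_left (G1 y hy) (by positivity)))
  have j3 := J_le H.cont H.ub hR' _ _ (fun _ => S * I * (3 * d)) c0 B.c0 continuous_const
    (fun y hy => by
      have := W_near H.cont H.ub e0 hR' hy 0 0 S (fun x hx => by
        simpa using H.ub _ (hR' x y hx hy.1 hy.2))
      have h2 : W u f ε (psi ε).F y ≤ S * I := by
        have := (abs_le.1 this).2
        linarith
      exact (mul_le_mul_of_nonneg_right h2 (G0 y)).trans
        (mul_le_mul_of_nonneg_left (G1 y hy) (by positivity)))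
  rw [ec] at j1 j3
  have near : ∀ s : ℝ, 0 ≤ s → s ≤ 1 →
      |J u f ε (d + 2 * ε) (psi ε).F (ramp ε (ε + s * d)).F2 - u ((1 - s) • a + s • b) * I| ≤
        L * (2 * ε) * I := by
    intro s s0 s1
    have sd : s * d ≤ d := by nlinarith
    have sd0 : 0 ≤ s * d := by positivity
    refine J_ramp H.cont H.ub hR' e0 (by linarith) (by linarith) _ c0 _ _ fun y hy hy' => ?_
    have := W_near H.cont H.ub e0 hR' hy (u ((1 - s) • a + s • b)) 0 (L * (2 * ε)) (fun x hx => by
      rw [zero_mul, add_zero, ← hP]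
      refine (hL _ (hR x y hx hy.1 hy.2) _ (hR 0 _ (by simpa) (by linarith) (by linarith))).trans
        (mul_le_mul_of_nonneg_left ?_ hL0)
      apply le_of_sq_le_sq _ (by linarith)
      rw [f.dist_sq]
      have b1 : x ^ 2 < ε ^ 2 := by
        rw [← sq_abs x]; exact pow_lt_pow_left₀ hx (abs_nonneg x) (by norm_num)
      have b2 : (y - (ε + s * d)) ^ 2 ≤ ε ^ 2 := by
        rw [← sq_abs]; exact pow_le_pow_left₀ (abs_nonneg _) hy'.le 2
      simp only [sub_zero]
      nlinarith)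
    simpa using this
  have n0 := (abs_le.1 (near 0 le_rfl zero_le_one)).2
  have n1 := (abs_le.1 (near 1 zero_le_one le_rfl)).2
  have n2 := (abs_le.1 (near θ t0 t1)).1
  simp only [zero_mul, add_zero, sub_zero, one_smul, zero_smul, one_mul, sub_self, zero_add]
    at n0 n1
  have lin : J u f ε (d + 2 * ε) (psi ε).F B.F2 =
      (1 - θ) * J u f ε (d + 2 * ε) (psi ε).F (ramp ε ε).F2 +
      θ * J u f ε (d + 2 * ε) (psi ε).F (ramp ε (ε + d)).F2 -
      J u f ε (d + 2 * ε) (psi ε).F (ramp ε (ε + θ * d)).F2 := by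
    have i1 := (intW H.cont H.ub hR' _ _ c0 (ramp ε ε).c2).const_mul (1 - θ)
    have i2 := (intW H.cont H.ub hR' _ _ c0 (ramp ε (ε + d)).c2).const_mul θ
    have i3 := intW H.cont H.ub hR' _ _ c0 (ramp ε (ε + θ * d)).c2
    have i4 : Integrable (fun y => (1 - θ) * (W u f ε (psi ε).F y * (ramp ε ε).F2 y) +
        θ * (W u f ε (psi ε).F y * (ramp ε (ε + d)).F2 y))
        (volume.restrict (Ioo 0 (d + 2 * ε))) := i1.add i2
    unfold J
    rw [← integral_const_mul, ← integral_const_mul, ← integral_add i1 i2, ← integral_sub i4 i3]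
    congr 1
    funext y
    simp only [B, comb]
    ring
  have m0 := mul_le_mul_of_nonneg_left n0 (show 0 ≤ 1 - θ by linarith)
  have m1 := mul_le_mul_of_nonneg_left n1 t0
  have m3 := mul_le_mul_of_nonneg_left j3 hl
  have w1 : 720 * K * I * (3 * d) * (d + 2 * ε) ≤ 720 * K * I * (3 * d) * (3 * d) :=
    mul_le_mul_of_nonneg_left (by linarith) (by positivity)
  have w2 : lam * (S * I * (3 * d) * (d + 2 * ε)) ≤ lam * (S * I * (3 * d) * (3 * d)) :=
    mul_le_mul_of_nonneg_left (mul_le_mul_of_nonneg_left (by linarith) (by positivity)) hl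
  have w3 : 4 * L * ε * I ≤ η * I := mul_le_mul_of_nonneg_right e3 Ip.le
  apply le_of_mul_le_mul_right _ Ip
  nlinarith

theorem bd_est {Ω : Set E} {α lam S : ℝ} {u : E → ℝ} (H : Sol Ω α lam S u) (f : Fr) {r : ℝ}
    (hr : 0 < r) (hs : Side Ω f r r) (a0 wt wn δ : ℝ)
    (h : ∀ x y, |x| < r → 0 < y → y < r → |u (f.P (x, y)) - (a0 + wt * x + wn * y)| ≤ δ) :
    |α * a0 - wn| ≤ (3 + α * r) * (186 * δ / r + lam * S * r) + α * |wt| * r := by
  obtain ⟨b, hb⟩ := H.idBd f r r hr hs
  have hδ : 0 ≤ δ := (abs_nonneg _).trans (h 0 (r / 2) (by simpa) (by linarith) (by linarith))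
  have hS : 0 ≤ S := (abs_nonneg _).trans (H.ub _ (hs.rect le_rfl 0 (r / 2) (by simpa)
    (by linarith) (by linarith)))
  have hl := H.lam0
  have hα := H.al0
  have c0 := (psi r).c0
  have c2 := (psi r).c2
  set I := ∫ x in Ioo (-r) r, (psi r).F x with hI
  set I1 := ∫ x in Ioo (-r) r, x * (psi r).F x with hI1
  have I0 : r / 3 ≤ I := psi_int hr
  have Ip : 0 < I := by linarith
  have I1b : |I1| ≤ r * I := by
    have h1 : I1 ≤ ∫ x in Ioo (-r) r, r * (psi r).F x :=
      setIntegral_mono_on (intOn_Ioo _ (by fun_prop) _ _) (intOn_Ioo _ (by fun_prop) _ _)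
        measurableSet_Ioo fun x hx =>
          mul_le_mul_of_nonneg_right hx.2.le (psi_pos hr x (abs_lt.2 hx)).le
    have h2 : ∫ x in Ioo (-r) r, -r * (psi r).F x ≤ I1 :=
      setIntegral_mono_on (intOn_Ioo _ (by fun_prop) _ _) (intOn_Ioo _ (by fun_prop) _ _)
        measurableSet_Ioo fun x hx =>
          mul_le_mul_of_nonneg_right hx.1.le (psi_pos hr x (abs_lt.2 hx)).le
    rw [integral_const_mul] at h1 h2
    rw [abs_le]
    constructor <;> linarith
  set η := 186 * δ / r + lam * S * r with hη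
  have key : ∀ ε, r / 2 ≤ ε → ε ≤ r →
      |(α + 3 / ε) * b - (3 * (a0 * I + wt * I1) / ε + wn * I)| ≤ η * I := by
    intro ε e1 e2
    have e0 : 0 < ε := by linarith
    have hR := hs.rect e2
    have g2 := (eta ε).c2
    have j1 := J_abs H.cont H.ub hR e0.le _ _ c2 (eta ε).c0 (δ * (30 / r ^ 2) * (2 * r))
      (fun y hy => by
        obtain ⟨q1, q2, -⟩ := eta_in e0 y hy
        have ec : ∀ m : ℝ, ∫ x in Ioo (-r) r, ((a0 + wn * y + wt * x) * (psi r).F2 x + m) =
            m * (2 * r) := fun m => by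
          rw [integral_add (intOn_Ioo _ (by fun_prop) _ _) (intOn_Ioo _ continuous_const _ _),
            psi_aff hr, setIntegral_const,
            Real.volume_real_Ioo_of_le (by linarith), smul_eq_mul]
          ring
        have pt : ∀ x, |x| < r → |u (f.P (x, y)) * (psi r).F2 x -
            (a0 + wn * y + wt * x) * (psi r).F2 x| ≤ δ * (30 / r ^ 2) := fun x hx => by
          rw [← sub_mul, abs_mul]
          refine mul_le_mul ?_ (psi2_abs hr x hx) (abs_nonneg _) hδ
          have := h x y hx hy.1 (hy.2.trans_le e2)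
          rwa [show a0 + wt * x + wn * y = a0 + wn * y + wt * x by ring] at this
        have w1 := W_le H.cont H.ub hR _
          (fun x => (a0 + wn * y + wt * x) * (psi r).F2 x + δ * (30 / r ^ 2)) c2 (by fun_prop) hy
          (fun x hx => by linarith [(abs_le.1 (pt x hx)).2])
        have w2 := le_W H.cont H.ub hR _
          (fun x => (a0 + wn * y + wt * x) * (psi r).F2 x + -(δ * (30 / r ^ 2))) c2 (by fun_prop) hy
          (fun x hx => by linarith [(abs_le.1 (pt x hx)).1])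
        rw [ec] at w1 w2
        have w3 : |W u f r (psi r).F2 y| ≤ δ * (30 / r ^ 2) * (2 * r) :=
          abs_le.2 ⟨by linarith, w1⟩
        rw [abs_mul, abs_of_pos q1]
        nlinarith [abs_nonneg (W u f r (psi r).F2 y)])
    have j3 := J_abs H.cont H.ub hR e0.le _ _ c0 (eta ε).c0 (S * I)
      (fun y hy => by
        obtain ⟨q1, q2, -⟩ := eta_in e0 y hy
        have := W_near H.cont H.ub hr hR hy 0 0 S (fun x hx => by
          simpa using H.ub _ (hR x y hx hy.1 hy.2))
        simp only [zero_mul, add_zero, sub_zero] at this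
        rw [abs_mul, abs_of_pos q1]
        nlinarith [abs_nonneg (W u f r (psi r).F y)])
    have wn' : ∀ y ∈ Ioo 0 ε, |W u f r (psi r).F y - ((a0 + wn * y) * I + wt * I1)| ≤ δ * I :=
      fun y hy => W_near H.cont H.ub hr hR hy _ _ δ (fun x hx => by
        have := h x y hx hy.1 (hy.2.trans_le e2)
        rwa [show a0 + wt * x + wn * y = a0 + wn * y + wt * x by ring] at this)
    have j2 := J_le H.cont H.ub hR _ _
      (fun y => (a0 * I + wt * I1 + δ * I + wn * I * y) * (eta ε).F2 y) c0 g2 (by fun_prop)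
      (fun y hy => mul_le_mul_of_nonneg_right (by linarith [(abs_le.1 (wn' y hy)).2])
        (eta_in e0 y hy).2.2.1.le)
    have j2' := le_J H.cont H.ub hR _ _
      (fun y => (a0 * I + wt * I1 - δ * I + wn * I * y) * (eta ε).F2 y) c0 g2 (by fun_prop)
      (fun y hy => mul_le_mul_of_nonneg_right (by linarith [(abs_le.1 (wn' y hy)).1])
        (eta_in e0 y hy).2.2.1.le)
    rw [eta_aff e0] at j2 j2'
    rw [← hb ε e0 e2]
    have k1 : δ * (30 / r ^ 2) * (2 * r) * ε ≤ 180 * δ / r * I := by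
      have : δ * (30 / r ^ 2) * (2 * r) * ε = 60 * δ / r * ε := by field_simp; ring
      rw [this]
      have h1 : 0 ≤ 60 * δ / r := by positivity
      have : 180 * δ / r * I = 60 * δ / r * (3 * I) := by ring
      rw [this]
      exact mul_le_mul_of_nonneg_left (by linarith) h1
    have k2 : 3 * (δ * I) / ε ≤ 6 * δ / r * I := by
      rw [div_le_iff₀ e0]
      have : 6 * δ / r * I * ε = 3 * (δ * I) * (2 * ε / r) := by ring
      rw [this]
      exact le_mul_of_one_le_right (by positivity) ((one_le_div hr).2 (by linarith))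
    have k3 : lam * (S * I * ε) ≤ lam * (S * I * r) :=
      mul_le_mul_of_nonneg_left (mul_le_mul_of_nonneg_left e2 (by positivity)) hl
    have k4 := abs_le.1 j1
    have k5 := abs_le.1 j3
    have k6 := mul_le_mul_of_nonneg_left k5.1 hl
    have k7 := mul_le_mul_of_nonneg_left k5.2 hl
    have k8 : 3 * (a0 * I + wt * I1 + δ * I) / ε = 3 * (a0 * I + wt * I1) / ε + 3 * (δ * I) / ε := by
      ring
    have k9 : 3 * (a0 * I + wt * I1 - δ * I) / ε = 3 * (a0 * I + wt * I1) / ε - 3 * (δ * I) / ε := by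
      ring
    have k10 : η * I = 180 * δ / r * I + 6 * δ / r * I + lam * (S * I * r) := by rw [hη]; ring
    rw [abs_le]
    constructor <;> linarith
  have k1 := abs_le.1 (key r (by linarith) le_rfl)
  have k2 := abs_le.1 (key (r / 2) le_rfl (by linarith))
  set a' := a0 * I + wt * I1 with ha'
  have e1 : 3 / (r / 2) = 2 * (3 / r) := by field_simp
  have e2 : 3 * a' / (r / 2) = 2 * (3 / r * a') := by field_simp
  have e3 : 3 * a' / r = 3 / r * a' := by ring
  rw [e1, e2] at k2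
  rw [e3] at k1
  have η0 : 0 ≤ η := by positivity
  have q1 : |α * b - wn * I| ≤ 3 * (η * I) := abs_le.2 ⟨by linarith, by linarith⟩
  have q2 : |3 / r * (b - a')| ≤ 2 * (η * I) := abs_le.2 ⟨by linarith, by linarith⟩
  have q3 : |b - a'| ≤ r * (η * I) := by
    rw [abs_mul, abs_of_pos (by positivity : 0 < 3 / r), div_mul_eq_mul_div,
      div_le_iff₀ hr] at q2
    nlinarith [mul_nonneg hr.le (mul_nonneg η0 Ip.le)]
  have q4 : |wt * I1| ≤ |wt| * (r * I) := by
    rw [abs_mul]; exact mul_le_mul_of_nonneg_left I1b (abs_nonneg _)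
  have q5 : |(α * a0 - wn) * I| ≤ ((3 + α * r) * η + α * |wt| * r) * I := by
    have r1 := abs_le.1 q1
    have r3 := abs_le.1 q3
    have r4 := abs_le.1 q4
    have s1 := mul_le_mul_of_nonneg_left r3.1 hα.le
    have s2 := mul_le_mul_of_nonneg_left r3.2 hα.le
    have s3 := mul_le_mul_of_nonneg_left r4.1 hα.le
    have s4 := mul_le_mul_of_nonneg_left r4.2 hα.le
    have s5 : (α * a0 - wn) * I = (α * b - wn * I) - α * (b - a') - α * (wt * I1) := by
      rw [ha']; ring
    have s6 : ((3 + α * r) * η + α * |wt| * r) * I =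
        3 * (η * I) + α * (r * (η * I)) + α * (|wt| * (r * I)) := by ring
    rw [s5, s6, abs_le]
    constructor <;> linarith
  rw [abs_mul, abs_of_pos Ip] at q5
  exact le_of_mul_le_mul_right q5 Ip

end Pool.Agent.H232Z.Rob
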