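import Pool.Agent.H232Z.Rob.Weak

/-! The very weak form of the Robin problem for product test functions. -/

set_option autoImplicit false

open MeasureTheory Set Filter Topology
open scoped InnerProductSpace

namespace Pool.Agent.H232Z.Rob

/-- a twice continuously differentiable function of one variable with its derivatives -/
structure Prof where
  F : ℝ → ℝ
  F1 : ℝ → ℝ
  F2 : ℝ → ℝ
  d1 : ∀ x, HasDerivAt F (F1 x) x
  d2 : ∀ x, HasDerivAt F1 (F2 x) x
  c2 : Continuous F2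

lemma Prof.c0 (A : Prof) : Continuous A.F :=
  continuous_iff_continuousAt.2 fun x => (A.d1 x).continuousAt

lemma Prof.c1 (A : Prof) : Continuous A.F1 :=
  continuous_iff_continuousAt.2 fun x => (A.d2 x).continuousAt

lemma Prof.cd (A : Prof) : ContDiff ℝ 1 A.F := by
  rw [contDiff_one_iff_deriv]
  refine ⟨fun x => (A.d1 x).differentiableAt, ?_⟩
  have : deriv A.F = A.F1 := funext fun x => (A.d1 x).deriv
  rw [this]; exact A.c1

/-- the weak equation -/
def WeakEq (Ω : Set E) (α lam : ℝ) (u : E → ℝ) (G : E → E) (T : E → ℝ) : Prop :=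
  ∀ φ : E → ℝ, ContDiff ℝ 1 φ → MemLp φ 2 (bdry Ω) →
    (∫ x in Ω, ⟪G x, gradient φ x⟫_ℝ) + α * ∫ x, T x * φ x ∂(bdry Ω) = lam * ∫ x in Ω, u x * φ x

lemma grad_prod (f : Fr) (A B : Prof) (z : E) :
    gradient (fun z => A.F (f.X z) * B.F (f.Y z)) z =
      (A.F1 (f.X z) * B.F (f.Y z)) • f.t + (A.F (f.X z) * B.F1 (f.Y z)) • f.n := by
  have hX : HasFDerivAt f.X (innerSL ℝ f.t) z := by
    have : f.X = fun z => innerSL ℝ f.t z - ⟪f.t, f.q⟫_ℝ := by
      funext z; simp [Fr.X, real_inner_comm, inner_sub_right]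
    rw [this]
    exact (innerSL ℝ f.t).hasFDerivAt.sub_const _
  have hY : HasFDerivAt f.Y (innerSL ℝ f.n) z := by
    have : f.Y = fun z => innerSL ℝ f.n z - ⟪f.n, f.q⟫_ℝ := by
      funext z; simp [Fr.Y, real_inner_comm, inner_sub_right]
    rw [this]
    exact (innerSL ℝ f.n).hasFDerivAt.sub_const _
  have h := ((A.d1 (f.X z)).comp_hasFDerivAt z hX).mul ((B.d1 (f.Y z)).comp_hasFDerivAt z hY)
  apply HasGradientAt.gradient
  rw [hasGradientAt_iff_hasFDerivAt]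
  refine HasFDerivAt.congr_fderiv h ?_
  ext v
  simp
  ring

lemma cd_prod (f : Fr) (A B : Prof) : ContDiff ℝ 1 (fun z => A.F (f.X z) * B.F (f.Y z)) := by
  have hX : ContDiff ℝ 1 f.X := by
    unfold Fr.X
    exact (contDiff_id.sub contDiff_const).inner ℝ contDiff_const
  have hY : ContDiff ℝ 1 f.Y := by
    unfold Fr.Y
    exact (contDiff_id.sub contDiff_const).inner ℝ contDiff_const
  exact (A.cd.comp hX).mul (B.cd.comp hY)

lemma rect_int {Ω : Set E} (ho : IsOpen Ω) (f : Fr) (R : Set (ℝ × ℝ)) (hR : MeasurableSet R)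
    (hin : ∀ p ∈ R, f.P p ∈ Ω) (h : E → ℝ) (h0 : ∀ p, p ∉ R → f.P p ∈ Ω → h (f.P p) = 0) :
    ∫ z in Ω, h z = ∫ p in R, h (f.P p) := by
  rw [← integral_indicator ho.measurableSet, f.integral_P, ← integral_indicator hR]
  congr 1
  funext p
  by_cases hp : p ∈ R
  · rw [indicator_of_mem hp, indicator_of_mem (hin p hp)]
  · rw [indicator_of_notMem hp]
    by_cases hq : f.P p ∈ Ω
    · rw [indicator_of_mem hq, h0 p hp hq]
    · rw [indicator_of_notMem hq]

theorem ident {Ω : Set E} (ho : IsOpen Ω) (hb : Bornology.IsBounded Ω) {α lam : ℝ} {u : E → ℝ}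
    {G : E → E} {T : E → ℝ} (hS : IsSobolev Ω u G T) (hw : WeakEq Ω α lam u G T) (f : Fr)
    (A B : Prof) {r c : ℝ} (hr : 0 ≤ r) (hc : 0 ≤ c)
    (sA : ∀ x, r ≤ |x| → A.F x = 0 ∧ A.F1 x = 0 ∧ A.F2 x = 0)
    (sB : ∀ y, c ≤ y → B.F y = 0 ∧ B.F1 y = 0 ∧ B.F2 y = 0)
    (hin : ∀ x y, |x| < r → 0 < y → y < c → f.P (x, y) ∈ Ω)
    (hout : ∀ x y, |x| < r → y ≤ 0 → f.P (x, y) ∈ Ω → B.F y = 0 ∧ B.F1 y = 0 ∧ B.F2 y = 0)
    (seg : Set E) (sm : MeasurableSet seg) (sf : seg ⊆ frontier Ω)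
    (sfin : Measure.hausdorffMeasure (1 : ℝ) seg < ⊤)
    (hφ : ∀ z ∈ frontier Ω, A.F (f.X z) * B.F (f.Y z) =
      seg.indicator (fun z => B.F 0 * A.F (f.X z)) z)
    (hline : ∀ k : E → ℝ, B.F1 0 * ∫ x in Ioo (-r) r, k (f.P (x, 0)) * A.F x =
      B.F1 0 * ∫ z in seg, k z * A.F (f.X z) ∂(Measure.hausdorffMeasure (1 : ℝ))) :
    ∫ p in Ioo (-r) r ×ˢ Ioo 0 c,
        u (f.P p) * (A.F2 p.1 * B.F p.2 + A.F p.1 * B.F2 p.2 + lam * (A.F p.1 * B.F p.2)) =
      (α * B.F 0 - B.F1 0) * ∫ z in seg, T z * A.F (f.X z) ∂(Measure.hausdorffMeasure (1 : ℝ)) := by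
  set R : Set (ℝ × ℝ) := Ioo (-r) r ×ˢ Ioo 0 c with hR
  set μ : Measure E := Measure.hausdorffMeasure (1 : ℝ) with hμ
  have mR : MeasurableSet R := measurableSet_Ioo.prod measurableSet_Ioo
  have hin' : ∀ p ∈ R, f.P p ∈ Ω := fun p hp => hin p.1 p.2 (abs_lt.2 hp.1) hp.2.1 hp.2.2
  have van : ∀ p : ℝ × ℝ, p ∉ R → f.P p ∈ Ω → (A.F p.1 = 0 ∧ A.F1 p.1 = 0 ∧ A.F2 p.1 = 0) ∨
      (B.F p.2 = 0 ∧ B.F1 p.2 = 0 ∧ B.F2 p.2 = 0) := by
    intro p hp hq
    by_cases h1 : r ≤ |p.1|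
    · exact Or.inl (sA _ h1)
    by_cases h2 : c ≤ p.2
    · exact Or.inr (sB _ h2)
    push Not at h1 h2
    by_cases h3 : p.2 ≤ 0
    · exact Or.inr (hout p.1 p.2 h1 h3 hq)
    push Not at h3
    exact absurd ⟨abs_lt.1 h1, h3, h2⟩ hp
  have sb : Bornology.IsBounded seg :=
    hb.closure.subset (sf.trans frontier_subset_closure)
  have hle : μ.restrict seg ≤ bdry Ω := Measure.restrict_mono sf le_rfl
  have cA := A.c0
  have cA1 := A.c1
  have cA2 := A.c2
  have cB := B.c0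
  have cB1 := B.c1
  have cB2 := B.c2
  have cX := f.contX
  have cY := f.contY
  have cP := f.contP
  set φ : E → ℝ := fun z => A.F (f.X z) * B.F (f.Y z) with hφd
  set Δ : E → ℝ := fun z => A.F2 (f.X z) * B.F (f.Y z) + A.F (f.X z) * B.F2 (f.Y z) with hΔ
  have cφ : ContDiff ℝ 1 φ := cd_prod f A B
  have mΩ : ∀ k : E → ℝ, Continuous k → MemLp k 2 (volume.restrict Ω) := fun k hk =>
    memLp_cont ho.measurableSet hb volume hb.measure_lt_top k hk
  have mΩ' : ∀ k : E → E, Continuous k → MemLp k 2 (volume.restrict Ω) := fun k hk =>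
    memLp_cont ho.measurableSet hb volume hb.measure_lt_top k hk
  have ms : ∀ k : E → ℝ, Continuous k → MemLp k 2 (μ.restrict seg) := fun k hk =>
    memLp_cont sm sb μ sfin k hk
  have rs : (bdry Ω).restrict seg = μ.restrict seg := by
    unfold bdry
    rw [Measure.restrict_restrict sm, inter_eq_left.2 sf]
  have aeφ : φ =ᵐ[bdry Ω] seg.indicator (fun z => B.F 0 * A.F (f.X z)) :=
    (ae_restrict_mem isClosed_frontier.measurableSet).mono hφ
  have mφ : MemLp φ 2 (bdry Ω) := by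
    rw [memLp_congr_ae aeφ, memLp_indicator_iff_restrict sm, rs]
    exact ms _ (by fun_prop)
  have w1 := hw φ cφ mφ
  have e1 : ∫ x, T x * φ x ∂(bdry Ω) = B.F 0 * ∫ z in seg, T z * A.F (f.X z) ∂μ := by
    rw [← integral_const_mul, ← rs, ← integral_indicator sm]
    apply integral_congr_ae
    filter_upwards [aeφ] with z hz
    rw [hz]
    by_cases h : z ∈ seg
    · simp only [indicator_of_mem h]; ring
    · simp only [indicator_of_notMem h, mul_zero]
  -- integration by parts for smooth functions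
  have ib : ∀ w : E → ℝ, ContDiff ℝ 1 w → ∫ x in Ω, ⟪gradient w x, gradient φ x⟫_ℝ =
      -(∫ x in Ω, w x * Δ x) - B.F1 0 * ∫ z in seg, w z * A.F (f.X z) ∂μ := by
    intro w hw
    have dw := hw.differentiable (by norm_num)
    have cw := hw.continuous
    have cg := cont_grad hw
    rw [rect_int ho f R mR hin' _ (fun p hp hq => by
        rw [hφd, grad_prod, f.XP, f.YP]
        rcases van p hp hq with h | h <;> simp [h.1, h.2.1]),
      rect_int ho f R mR hin' (fun x => w x * Δ x) (fun p hp hq => by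
        simp only [hΔ, f.XP, f.YP]
        rcases van p hp hq with h | h <;> simp [h.1, h.2.2]), ← hline w]
    have := ibp (fun p => w (f.P p)) (fun p => ⟪gradient w (f.P p), f.t⟫_ℝ)
      (fun p => ⟪gradient w (f.P p), f.n⟫_ℝ) (by fun_prop) (by fun_prop) (by fun_prop)
      (fun x y => f.hasDerivAt_x w dw x y) (fun x y => f.hasDerivAt_y w dw x y)
      A.F A.F1 A.F2 B.F B.F1 B.F2 cA cA2 cB cB2 A.d2 B.d2 r c hr hc
      (sA r (le_abs_self r)).2.1 (sA (-r) (by rw [abs_neg]; exact le_abs_self r)).2.1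
      (sB c le_rfl).2.1
    simp only [hΔ, f.XP, f.YP]
    rw [← this]
    congr 1
    funext p
    rw [hφd, grad_prod, f.XP, f.YP, inner_add_right, inner_smul_right, inner_smul_right]
    ring
  obtain ⟨ψ, a1, a2, a3, a4⟩ := hS.approx
  have a4' : Tendsto (fun k => eLpNorm (ψ k - T) 2 (μ.restrict seg)) atTop (𝓝 0) :=
    tendsto_of_tendsto_of_tendsto_of_le_of_le tendsto_const_nhds a4 (fun _ => zero_le)
      (fun k => eLpNorm_mono_measure _ hle)
  have l1 := tendsto_pair (fun k => gradient (ψ k)) G (gradient φ)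
    (fun k => mΩ' _ (cont_grad (a1 k))) hS.memLp_G (mΩ' _ (cont_grad cφ)) a3
  have l2 := tendsto_pair ψ u Δ (fun k => mΩ _ (a1 k).continuous) hS.memLp_u
    (mΩ _ (by rw [hΔ]; fun_prop)) a2
  have l3 := tendsto_pair ψ T (fun z => A.F (f.X z)) (fun k => ms _ (a1 k).continuous)
    (hS.memLp_T.mono_measure hle) (ms _ (by fun_prop)) a4'
  simp only [RCLike.inner_apply, conj_trivial, mul_comm (Δ _), mul_comm (A.F _)] at l2 l3
  have e2 : ∫ x in Ω, ⟪G x, gradient φ x⟫_ℝ =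
      -(∫ x in Ω, u x * Δ x) - B.F1 0 * ∫ z in seg, T z * A.F (f.X z) ∂μ := by
    refine tendsto_nhds_unique l1 ?_
    simp only [fun k => ib (ψ k) (a1 k)]
    exact l2.neg.sub (l3.const_mul _)
  have i1 : Integrable (fun x => u x * Δ x) (volume.restrict Ω) := by
    simpa [mul_comm] using int_inner hS.memLp_u (mΩ Δ (by rw [hΔ]; fun_prop))
  have i2 : Integrable (fun x => u x * φ x) (volume.restrict Ω) := by
    simpa [mul_comm] using int_inner hS.memLp_u (mΩ φ cφ.continuous)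
  have e3 : ∫ x in Ω, (u x * Δ x + lam * (u x * φ x)) =
      (α * B.F 0 - B.F1 0) * ∫ z in seg, T z * A.F (f.X z) ∂μ := by
    rw [integral_add i1 (i2.const_mul _), integral_const_mul]
    rw [e1, e2] at w1
    linarith
  rw [← e3, rect_int ho f R mR hin' _ (fun p hp hq => by
    simp only [hΔ, hφd, f.XP, f.YP]
    rcases van p hp hq with h | h <;> simp [h.1, h.2.2])]
  congr 1
  funext p
  simp only [hΔ, hφd, f.XP, f.YP]
  ring

/-- interior form -/
theorem ident_in {Ω : Set E} (ho : IsOpen Ω) (hb : Bornology.IsBounded Ω) {α lam : ℝ}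
    {u : E → ℝ} {G : E → E} {T : E → ℝ} (hS : IsSobolev Ω u G T) (hw : WeakEq Ω α lam u G T)
    (f : Fr) (A B : Prof) {r c : ℝ} (hr : 0 ≤ r) (hc : 0 ≤ c)
    (sA : ∀ x, r ≤ |x| → A.F x = 0 ∧ A.F1 x = 0 ∧ A.F2 x = 0)
    (sB : ∀ y, c ≤ y ∨ y ≤ 0 → B.F y = 0 ∧ B.F1 y = 0 ∧ B.F2 y = 0)
    (hin : ∀ x y, |x| < r → 0 < y → y < c → f.P (x, y) ∈ Ω) :
    ∫ p in Ioo (-r) r ×ˢ Ioo 0 c,
        u (f.P p) * (A.F2 p.1 * B.F p.2 + A.F p.1 * B.F2 p.2 + lam * (A.F p.1 * B.F p.2)) = 0 := by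
  have := ident ho hb hS hw f A B hr hc sA (fun y h => sB y (Or.inl h)) hin
    (fun x y _ h _ => sB y (Or.inr h)) ∅ MeasurableSet.empty (empty_subset _) (by simp) ?_
    (fun k => by simp [(sB 0 (Or.inr le_rfl)).2.1])
  · simpa using this
  · intro z hz
    rw [indicator_empty]
    by_cases h1 : r ≤ |f.X z|
    · simp [(sA _ h1).1]
    by_cases h2 : c ≤ f.Y z ∨ f.Y z ≤ 0
    · simp [(sB _ h2).1]
    push Not at h1 h2
    have := hin _ _ h1 h2.2 h2.1
    rw [f.PXY] at this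
    rw [ho.frontier_eq] at hz
    exact absurd this hz.2

/-- near the frame origin the domain is the half plane `y > 0` -/
def Side (Ω : Set E) (f : Fr) (r c : ℝ) : Prop :=
  ∀ x y, |x| ≤ r → y ≤ c → (f.P (x, y) ∈ Ω ↔ 0 < y) ∧ (f.P (x, y) ∈ frontier Ω ↔ y = 0)

/-- boundary form -/
theorem ident_bd {Ω : Set E} (ho : IsOpen Ω) (hb : Bornology.IsBounded Ω) {α lam : ℝ}
    {u : E → ℝ} {G : E → E} {T : E → ℝ} (hS : IsSobolev Ω u G T) (hw : WeakEq Ω α lam u G T)
    (f : Fr) (A : Prof) {r c0 : ℝ} (hr : 0 ≤ r) (hs : Side Ω f r c0)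
    (sA : ∀ x, r ≤ |x| → A.F x = 0 ∧ A.F1 x = 0 ∧ A.F2 x = 0) :
    ∃ b : ℝ, ∀ (B : Prof) (c : ℝ), 0 ≤ c → c ≤ c0 →
      (∀ y, c ≤ y → B.F y = 0 ∧ B.F1 y = 0 ∧ B.F2 y = 0) →
      ∫ p in Ioo (-r) r ×ˢ Ioo 0 c,
        u (f.P p) * (A.F2 p.1 * B.F p.2 + A.F p.1 * B.F2 p.2 + lam * (A.F p.1 * B.F p.2)) =
      (α * B.F 0 - B.F1 0) * b := by
  have emb : MeasurableEmbedding fun x : ℝ => f.P (x, 0) :=
    f.isometry_line.isClosedEmbedding.measurableEmbedding
  set seg := (fun x : ℝ => f.P (x, 0)) '' Ioo (-r) r with hseg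
  have sm : MeasurableSet seg := emb.measurableSet_image.2 measurableSet_Ioo
  refine ⟨∫ z in seg, T z * A.F (f.X z) ∂(Measure.hausdorffMeasure (1 : ℝ)), ?_⟩
  intro B c hc hcc sB
  refine ident ho hb hS hw f A B hr hc sA sB
    (fun x y h1 h2 h3 => (hs x y h1.le (by linarith)).1.2 h2)
    (fun x y h1 h2 h3 => absurd ((hs x y h1.le (by linarith)).1.1 h3) (not_lt.2 h2)) seg sm ?_ ?_
    ?_ ?_
  · rintro _ ⟨x, hx, rfl⟩
    exact (hs x 0 (abs_lt.2 hx).le (by linarith)).2.2 rfl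
  · rw [hseg, f.isometry_line.hausdorffMeasure_image (Or.inl zero_le_one), hausdorffMeasure_real]
    simp
  · intro z hz
    by_cases h : z ∈ seg
    · rw [indicator_of_mem h]
      obtain ⟨x, -, rfl⟩ := h
      simp only [f.XP, f.YP]
      ring
    rw [indicator_of_notMem h]
    by_cases h1 : r ≤ |f.X z|
    · simp [(sA _ h1).1]
    by_cases h2 : c ≤ f.Y z
    · simp [(sB _ h2).1]
    push Not at h1 h2
    have := (hs _ _ h1.le (h2.le.trans hcc)).2.1 (by rw [f.PXY]; exact hz)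
    refine absurd ⟨f.X z, abs_lt.1 h1, ?_⟩ h
    show f.P (f.X z, 0) = z
    rw [← this, f.PXY]
  · intro k
    congr 1
    have h1 : (Measure.hausdorffMeasure (1 : ℝ) : Measure E).restrict seg =
        (Measure.map (fun x : ℝ => f.P (x, 0)) volume).restrict seg := by
      rw [← hausdorffMeasure_real, f.isometry_line.map_hausdorffMeasure (Or.inl zero_le_one),
        Measure.restrict_restrict sm, inter_eq_left.2 (image_subset_range _ _)]
    rw [h1, emb.setIntegral_map, hseg, emb.injective.preimage_image]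
    simp only [f.XP]

end Pool.Agent.H232Z.Rob
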