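import Pool.Agent.H232Z.Rob.Ident

/-! Explicit test profiles. -/

set_option autoImplicit false

open MeasureTheory Set Filter Topology

namespace Pool.Agent.H232Z.Rob

lemma hd_pos (n : ℕ) (x : ℝ) :
    HasDerivAt (fun x : ℝ => max x 0 ^ (n + 2)) ((n + 2) * max x 0 ^ (n + 1)) x := by
  rcases lt_trichotomy x 0 with h | h | h
  · have : (fun x : ℝ => max x 0 ^ (n + 2)) =ᶠ[𝓝 x] fun _ => 0 := by
      filter_upwards [Iio_mem_nhds h] with y hy
      rw [max_eq_right (le_of_lt hy)]; simp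
    rw [max_eq_right h.le]
    simpa using (hasDerivAt_const x (0 : ℝ)).congr_of_eventuallyEq this
  · subst h
    rw [hasDerivAt_iff_tendsto_slope_zero]
    have h1 : Tendsto (fun t : ℝ => max t 0 ^ (n + 1)) (𝓝[≠] 0) (𝓝 (max 0 0 ^ (n + 1))) :=
      (Continuous.tendsto (by fun_prop) (0 : ℝ)).mono_left nhdsWithin_le_nhds
    simp only [max_self, ne_eq, Nat.add_eq_zero_iff, one_ne_zero, and_false, not_false_eq_true,
      zero_pow, mul_zero, zero_add, OfNat.ofNat_ne_zero, sub_zero, smul_eq_mul] at h1 ⊢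
    refine h1.congr' ?_
    filter_upwards [self_mem_nhdsWithin] with t ht
    have ht' : t ≠ 0 := ht
    rcases le_total t 0 with h | h
    · rw [max_eq_right h]; simp
    · rw [max_eq_left h]; field_simp; ring
  · have : (fun x : ℝ => max x 0 ^ (n + 2)) =ᶠ[𝓝 x] fun y => y ^ (n + 2) := by
      filter_upwards [Ioi_mem_nhds h] with y hy
      rw [max_eq_left (le_of_lt hy)]
    rw [max_eq_left h.le]
    simpa using (hasDerivAt_pow (n + 2) x).congr_of_eventuallyEq this

lemma hd3 (x : ℝ) : HasDerivAt (fun x : ℝ => max x 0 ^ 3) (3 * max x 0 ^ 2) x := by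
  have := hd_pos 1 x
  norm_num at this
  exact this

lemma hd2 (x : ℝ) : HasDerivAt (fun x : ℝ => max x 0 ^ 2) (2 * max x 0) x := by
  have := hd_pos 0 x
  norm_num at this
  exact this

/-- `(1 - (x/r)^2)_+^3` -/
noncomputable def psi (r : ℝ) : Prof where
  F x := max (1 - (x / r) ^ 2) 0 ^ 3
  F1 x := -6 * x / r ^ 2 * max (1 - (x / r) ^ 2) 0 ^ 2
  F2 x := -6 / r ^ 2 * max (1 - (x / r) ^ 2) 0 ^ 2 + 24 * x ^ 2 / r ^ 4 * max (1 - (x / r) ^ 2) 0
  d1 x := by
    have h : HasDerivAt (fun x : ℝ => 1 - (x / r) ^ 2) (-(2 * x / r ^ 2)) x := by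
      have := (((hasDerivAt_id x).div_const r).pow 2).const_sub 1
      refine HasDerivAt.congr_deriv this ?_
      simp; ring
    have := (hd3 _).comp x h
    refine HasDerivAt.congr_deriv this ?_
    ring
  d2 x := by
    have h : HasDerivAt (fun x : ℝ => 1 - (x / r) ^ 2) (-(2 * x / r ^ 2)) x := by
      have := (((hasDerivAt_id x).div_const r).pow 2).const_sub 1
      refine HasDerivAt.congr_deriv this ?_
      simp; ring
    have h2 := (hd2 _).comp x h
    have h3 : HasDerivAt (fun x : ℝ => -6 * x / r ^ 2) (-6 / r ^ 2) x := by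
      simpa using ((hasDerivAt_id x).const_mul (-6)).div_const (r ^ 2)
    have := h3.mul h2
    refine HasDerivAt.congr_deriv this ?_
    simp only [Function.comp]
    ring
  c2 := by fun_prop

lemma psi_supp {r : ℝ} (hr : 0 < r) (x : ℝ) (h : r ≤ |x|) :
    (psi r).F x = 0 ∧ (psi r).F1 x = 0 ∧ (psi r).F2 x = 0 := by
  have : max (1 - (x / r) ^ 2) 0 = 0 := by
    apply max_eq_right
    rw [div_pow, sub_nonpos, le_div_iff₀ (by positivity), one_mul, ← sq_abs x]
    exact pow_le_pow_left₀ hr.le h 2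
  simp [psi, this]

lemma psi_in {r : ℝ} (hr : 0 < r) (x : ℝ) (h : |x| < r) : ∃ s : ℝ, 0 ≤ s ∧ s < 1 ∧
    x ^ 2 = s * r ^ 2 ∧ (psi r).F x = (1 - s) ^ 3 ∧
    (psi r).F2 x = (1 - s) * (30 * s - 6) / r ^ 2 := by
  have h1 : (x / r) ^ 2 < 1 := by
    rw [div_pow, div_lt_one (by positivity), ← sq_abs x]
    exact pow_lt_pow_left₀ h (abs_nonneg x) (by norm_num)
  have : max (1 - (x / r) ^ 2) 0 = 1 - (x / r) ^ 2 := max_eq_left (by linarith)
  refine ⟨(x / r) ^ 2, by positivity, h1, by field_simp, by simp [psi, this], ?_⟩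
  simp only [psi, this]
  field_simp
  ring

lemma psi_even (r x : ℝ) : (psi r).F2 (-x) = (psi r).F2 x := by
  simp [psi, neg_div]

lemma psi_pos {r : ℝ} (hr : 0 < r) (x : ℝ) (h : |x| < r) : 0 < (psi r).F x := by
  obtain ⟨s, h0, h1, -, e, -⟩ := psi_in hr x h
  rw [e]; exact pow_pos (by linarith) 3

lemma psi_le {r : ℝ} (hr : 0 < r) (x : ℝ) (h : |x| < r) : (psi r).F x ≤ 1 := by
  obtain ⟨s, h0, h1, -, e, -⟩ := psi_in hr x h
  rw [e]; exact pow_le_one₀ (by linarith) (by linarith)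

lemma psi2_abs {r : ℝ} (hr : 0 < r) (x : ℝ) (h : |x| < r) : |(psi r).F2 x| ≤ 30 / r ^ 2 := by
  obtain ⟨s, h0, h1, -, -, e⟩ := psi_in hr x h
  rw [e, abs_div, abs_of_pos (by positivity : 0 < r ^ 2)]
  apply div_le_div_of_nonneg_right _ (by positivity)
  rw [abs_le]
  constructor <;> nlinarith

lemma psi2_ge {r : ℝ} (hr : 0 < r) (x : ℝ) (h : |x| < r) :
    -(6 / r ^ 2) * (psi r).F x ≤ (psi r).F2 x := by
  obtain ⟨s, h0, h1, -, e1, e⟩ := psi_in hr x h
  rw [e, e1, le_div_iff₀ (by positivity)]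
  have : -(6 / r ^ 2) * (1 - s) ^ 3 * r ^ 2 = -6 * (1 - s) ^ 3 := by field_simp
  rw [this]
  have h2 : 0 ≤ (1 - s) * (18 * s + 6 * s ^ 2) := by
    apply mul_nonneg (by linarith); positivity
  nlinarith

lemma psi_int {r : ℝ} (hr : 0 < r) : r / 3 ≤ ∫ x in Ioo (-r) r, (psi r).F x := by
  have c0 := (psi r).c0
  have hi : IntegrableOn (psi r).F (Ioo (-r) r) volume :=
    (c0.continuousOn.integrableOn_compact isCompact_Icc).mono_set Ioo_subset_Icc_self
  have h1 : ∫ x in Ioo (-(r / 2)) (r / 2), (psi r).F x ≤ ∫ x in Ioo (-r) r, (psi r).F x := by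
    apply setIntegral_mono_set hi
    · exact (ae_restrict_mem measurableSet_Ioo).mono fun x hx => (psi_pos hr x (abs_lt.2 hx)).le
    · exact (Ioo_subset_Ioo (by linarith) (by linarith)).eventuallyLE
  have h2 : ∫ x in Ioo (-(r / 2)) (r / 2), (1 / 3 : ℝ) ≤
      ∫ x in Ioo (-(r / 2)) (r / 2), (psi r).F x := by
    apply setIntegral_mono_on (by simp)
      (hi.mono_set (Ioo_subset_Ioo (by linarith) (by linarith))) measurableSet_Ioo
    intro x hx
    have hx' := abs_lt.2 hx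
    obtain ⟨s, h0, h1, e0, e, -⟩ := psi_in hr x (by linarith)
    have : x ^ 2 ≤ (r / 2) ^ 2 := by
      rw [← sq_abs x]; exact pow_le_pow_left₀ (abs_nonneg x) hx'.le 2
    have hs : s ≤ 1 / 4 := by
      by_contra hc
      push Not at hc
      nlinarith [sq_pos_of_pos hr]
    rw [e]
    have : (3 / 4 : ℝ) ^ 3 ≤ (1 - s) ^ 3 := pow_le_pow_left₀ (by norm_num) (by linarith) 3
    linarith
  rw [setIntegral_const, Real.volume_real_Ioo_of_le (by linarith), smul_eq_mul] at h2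
  linarith

/-- `(1 - y/ε)_+^3` -/
noncomputable def eta (ε : ℝ) : Prof where
  F y := max (1 - y / ε) 0 ^ 3
  F1 y := -3 / ε * max (1 - y / ε) 0 ^ 2
  F2 y := 6 / ε ^ 2 * max (1 - y / ε) 0
  d1 y := by
    have h : HasDerivAt (fun y : ℝ => 1 - y / ε) (-(1 / ε)) y :=
      ((hasDerivAt_id y).div_const ε).const_sub 1
    have := (hd3 _).comp y h
    refine HasDerivAt.congr_deriv this ?_
    ring
  d2 y := by
    have h : HasDerivAt (fun y : ℝ => 1 - y / ε) (-(1 / ε)) y :=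
      ((hasDerivAt_id y).div_const ε).const_sub 1
    have := ((hd2 _).comp y h).const_mul (-3 / ε)
    refine HasDerivAt.congr_deriv this ?_
    ring
  c2 := by fun_prop

lemma eta_supp {ε : ℝ} (h : 0 < ε) (y : ℝ) (hy : ε ≤ y) :
    (eta ε).F y = 0 ∧ (eta ε).F1 y = 0 ∧ (eta ε).F2 y = 0 := by
  have : max (1 - y / ε) 0 = 0 := max_eq_right (by rw [sub_nonpos, le_div_iff₀ h]; linarith)
  simp [eta, this]

lemma eta0 (ε : ℝ) : (eta ε).F 0 = 1 := by simp [eta]
lemma eta10 (ε : ℝ) : (eta ε).F1 0 = -3 / ε := by simp [eta]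

lemma eta_in {ε : ℝ} (h : 0 < ε) (y : ℝ) (hy : y ∈ Ioo 0 ε) : 0 < (eta ε).F y ∧ (eta ε).F y ≤ 1 ∧
    0 < (eta ε).F2 y ∧ 6 * (eta ε).F y ≤ ε ^ 2 * (eta ε).F2 y := by
  have h1 : y / ε < 1 := (div_lt_one h).2 hy.2
  have h2 : 0 < y / ε := div_pos hy.1 h
  have : max (1 - y / ε) 0 = 1 - y / ε := max_eq_left (by linarith)
  simp only [eta, this]
  generalize y / ε = s at *
  have h3 : 0 < 1 - s := by linarith
  refine ⟨by positivity, pow_le_one₀ h3.le (by linarith), by positivity, ?_⟩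
  have : ε ^ 2 * (6 / ε ^ 2 * (1 - s)) = 6 * (1 - s) := by field_simp
  rw [this]
  have : 0 ≤ (1 - s) * (s * (2 - s)) := by
    apply mul_nonneg h3.le; apply mul_nonneg h2.le; linarith
  nlinarith

lemma Prof.aff_int (B : Prof) (a m x y : ℝ) (h : x ≤ y) :
    ∫ t in Ioo x y, (a + m * t) * B.F2 t =
      ((a + m * y) * B.F1 y - m * B.F y) - ((a + m * x) * B.F1 x - m * B.F x) := by
  have c2 := B.c2
  rw [ioo_eq _ h, intervalIntegral.integral_eq_sub_of_hasDerivAt
    (f := fun t => (a + m * t) * B.F1 t - m * B.F t) _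
    (Continuous.intervalIntegrable (by fun_prop) _ _)]
  intro t _
  have h1 : HasDerivAt (fun t : ℝ => a + m * t) m t := by
    simpa using ((hasDerivAt_id t).const_mul m).const_add a
  have := (h1.mul (B.d2 t)).sub ((B.d1 t).const_mul m)
  refine HasDerivAt.congr_deriv this ?_
  ring

lemma eta_aff {ε : ℝ} (h : 0 < ε) (a m : ℝ) :
    ∫ t in Ioo 0 ε, (a + m * t) * (eta ε).F2 t = 3 * a / ε + m := by
  rw [Prof.aff_int _ _ _ _ _ h.le, (eta_supp h ε le_rfl).1, (eta_supp h ε le_rfl).2.1, eta0, eta10]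
  ring

lemma psi_aff {r : ℝ} (h : 0 < r) (a m : ℝ) :
    ∫ t in Ioo (-r) r, (a + m * t) * (psi r).F2 t = 0 := by
  have h1 := psi_supp h r (le_abs_self r)
  have h2 := psi_supp h (-r) (by rw [abs_neg]; exact le_abs_self r)
  rw [Prof.aff_int _ _ _ _ _ (by linarith), h1.1, h1.2.1, h2.1, h2.2.1]
  ring

/-- a smooth version of the positive part, shifted by `a` -/
noncomputable def ramp (ε a : ℝ) : Prof where
  F x := (max (x - a + ε) 0 ^ 3 - 2 * max (x - a) 0 ^ 3 + max (x - a - ε) 0 ^ 3) / (6 * ε ^ 2)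
  F1 x := (max (x - a + ε) 0 ^ 2 - 2 * max (x - a) 0 ^ 2 + max (x - a - ε) 0 ^ 2) / (2 * ε ^ 2)
  F2 x := (max (x - a + ε) 0 - 2 * max (x - a) 0 + max (x - a - ε) 0) / ε ^ 2
  d1 x := by
    have h0 : HasDerivAt (fun x : ℝ => x - a) 1 x := (hasDerivAt_id x).sub_const a
    have := ((((hd3 _).comp x (h0.add_const ε)).sub (((hd3 _).comp x h0).const_mul 2)).add
      ((hd3 _).comp x (h0.sub_const ε))).div_const (6 * ε ^ 2)
    refine HasDerivAt.congr_deriv this ?_
    ring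
  d2 x := by
    have h0 : HasDerivAt (fun x : ℝ => x - a) 1 x := (hasDerivAt_id x).sub_const a
    have := ((((hd2 _).comp x (h0.add_const ε)).sub (((hd2 _).comp x h0).const_mul 2)).add
      ((hd2 _).comp x (h0.sub_const ε))).div_const (2 * ε ^ 2)
    refine HasDerivAt.congr_deriv this ?_
    ring
  c2 := by fun_prop

lemma ramp_left {ε : ℝ} (h : 0 < ε) (a x : ℝ) (hx : x ≤ a - ε) :
    (ramp ε a).F x = 0 ∧ (ramp ε a).F1 x = 0 ∧ (ramp ε a).F2 x = 0 := by
  simp only [ramp, max_eq_right (show x - a + ε ≤ 0 by linarith),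
    max_eq_right (show x - a ≤ 0 by linarith), max_eq_right (show x - a - ε ≤ 0 by linarith)]
  simp

lemma ramp_right {ε : ℝ} (h : 0 < ε) (a x : ℝ) (hx : a + ε ≤ x) :
    (ramp ε a).F x = x - a ∧ (ramp ε a).F1 x = 1 ∧ (ramp ε a).F2 x = 0 := by
  simp only [ramp, max_eq_left (show 0 ≤ x - a + ε by linarith),
    max_eq_left (show 0 ≤ x - a by linarith), max_eq_left (show 0 ≤ x - a - ε by linarith)]
  refine ⟨?_, ?_, ?_⟩ <;> field_simp <;> ring

lemma ramp2_nonneg {ε : ℝ} (h : 0 < ε) (a x : ℝ) : 0 ≤ (ramp ε a).F2 x := by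
  apply div_nonneg _ (by positivity)
  have h1 := le_max_left (x - a + ε) 0
  have h2 := le_max_right (x - a + ε) 0
  have h3 := le_max_left (x - a - ε) 0
  have h4 := le_max_right (x - a - ε) 0
  rcases le_total (x - a) 0 with h5 | h5
  · rw [max_eq_right h5]; linarith
  · rw [max_eq_left h5]; linarith

lemma ramp_mono {ε : ℝ} (h : 0 < ε) (a : ℝ) : Monotone (ramp ε a).F := by
  have m1 : Monotone (ramp ε a).F1 := monotone_of_deriv_nonneg
    (fun x => ((ramp ε a).d2 x).differentiableAt)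
    (fun x => by rw [((ramp ε a).d2 x).deriv]; exact ramp2_nonneg h a x)
  refine monotone_of_deriv_nonneg (fun x => ((ramp ε a).d1 x).differentiableAt) (fun x => ?_)
  rw [((ramp ε a).d1 x).deriv, ← (ramp_left h a (min x (a - ε)) (min_le_right _ _)).2.1]
  exact m1 (min_le_left _ _)

lemma ramp_convex {ε : ℝ} (h : 0 < ε) : ConvexOn ℝ univ (ramp ε 0).F := by
  have e : deriv (ramp ε 0).F = (ramp ε 0).F1 := funext fun x => ((ramp ε 0).d1 x).deriv
  refine convexOn_univ_of_deriv2_nonneg (fun x => ((ramp ε 0).d1 x).differentiableAt) ?_ ?_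
  · rw [e]; exact fun x => ((ramp ε 0).d2 x).differentiableAt
  · intro x
    show 0 ≤ deriv (deriv (ramp ε 0).F) x
    rw [e, ((ramp ε 0).d2 x).deriv]
    exact ramp2_nonneg h 0 x

lemma ramp_shift (ε a x : ℝ) : (ramp ε a).F x = (ramp ε 0).F (x - a) := by simp [ramp]

/-- linear combination of three profiles -/
noncomputable def comb (a b : ℝ) (A B C : Prof) : Prof where
  F x := a * A.F x + b * B.F x - C.F x
  F1 x := a * A.F1 x + b * B.F1 x - C.F1 x
  F2 x := a * A.F2 x + b * B.F2 x - C.F2 x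
  d1 x := (((A.d1 x).const_mul a).add ((B.d1 x).const_mul b)).sub (C.d1 x)
  d2 x := (((A.d2 x).const_mul a).add ((B.d2 x).const_mul b)).sub (C.d2 x)
  c2 := by
    have := A.c2
    have := B.c2
    have := C.c2
    fun_prop

end Pool.Agent.H232Z.Rob
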