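import Pool.Agent.H232Z.Rob.Prof

/-! Iterated form of the identities; the bound on the normal slope of a log-concave solution. -/

set_option autoImplicit false

open MeasureTheory Set Filter Topology

namespace Pool.Agent.H232Z.Rob

/-- slice integrals -/
noncomputable def W (u : E → ℝ) (f : Fr) (r : ℝ) (k : ℝ → ℝ) (y : ℝ) : ℝ :=
  ∫ x in Ioo (-r) r, u (f.P (x, y)) * k x

/-- double integrals -/
noncomputable def J (u : E → ℝ) (f : Fr) (r c : ℝ) (k g : ℝ → ℝ) : ℝ :=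
  ∫ y in Ioo 0 c, W u f r k y * g y

/-- the open rectangle lies in the domain -/
def Rect (Ω : Set E) (f : Fr) (r c : ℝ) : Prop :=
  ∀ x y, |x| < r → 0 < y → y < c → f.P (x, y) ∈ Ω

lemma intOn_Ioo (k : ℝ → ℝ) (hk : Continuous k) (a b : ℝ) : IntegrableOn k (Ioo a b) volume :=
  (hk.continuousOn.integrableOn_compact isCompact_Icc).mono_set Ioo_subset_Icc_self

section
variable {Ω : Set E} {u : E → ℝ} {S : ℝ} (hc : ContinuousOn u Ω) (hb : ∀ x ∈ Ω, |u x| ≤ S)
  {f : Fr} {r c : ℝ} (hR : Rect Ω f r c)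
include hc hb hR

lemma intR (k : ℝ × ℝ → ℝ) (hk : Continuous k) :
    IntegrableOn (fun p => u (f.P p) * k p) (Ioo (-r) r ×ˢ Ioo 0 c) volume := by
  have mR : MeasurableSet (Ioo (-r) r ×ˢ Ioo (0 : ℝ) c) := measurableSet_Ioo.prod measurableSet_Ioo
  have hin : ∀ p ∈ Ioo (-r) r ×ˢ Ioo (0 : ℝ) c, f.P p ∈ Ω :=
    fun p hp => hR p.1 p.2 (abs_lt.2 hp.1) hp.2.1 hp.2.2
  refine Integrable.bdd_mul (c := S) (integrableOn_rect k hk _ _ _ _)
    ((hc.comp f.contP.continuousOn hin).aestronglyMeasurable mR) ?_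
  exact (ae_restrict_mem mR).mono fun p hp => hb _ (hin p hp)

lemma intX (k : ℝ → ℝ) (hk : Continuous k) {y : ℝ} (hy : y ∈ Ioo 0 c) :
    IntegrableOn (fun x => u (f.P (x, y)) * k x) (Ioo (-r) r) volume := by
  have hin : ∀ x ∈ Ioo (-r) r, f.P (x, y) ∈ Ω := fun x hx => hR x y (abs_lt.2 hx) hy.1 hy.2
  have cP := f.contP
  refine Integrable.bdd_mul (c := S) (intOn_Ioo k hk _ _)
    ((hc.comp (f := fun x => f.P (x, y)) (by fun_prop) hin).aestronglyMeasurable
      measurableSet_Ioo) ?_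
  exact (ae_restrict_mem measurableSet_Ioo).mono fun p hp => hb _ (hin p hp)

lemma intW (k g : ℝ → ℝ) (hk : Continuous k) (hg : Continuous g) :
    IntegrableOn (fun y => W u f r k y * g y) (Ioo 0 c) volume := by
  have h := intR hc hb hR (fun p => k p.1 * g p.2) (by fun_prop)
  rw [IntegrableOn, Measure.volume_eq_prod, ← Measure.prod_restrict] at h
  have := h.integral_prod_right
  refine this.congr (Eventually.of_forall fun y => ?_)
  simp only [W, ← mul_assoc, integral_mul_const]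

lemma iter (k g : ℝ → ℝ) (hk : Continuous k) (hg : Continuous g) :
    ∫ p in Ioo (-r) r ×ˢ Ioo 0 c, u (f.P p) * (k p.1 * g p.2) = J u f r c k g := by
  have h := intR hc hb hR (fun p => k p.1 * g p.2) (by fun_prop)
  rw [IntegrableOn, Measure.volume_eq_prod, ← Measure.prod_restrict] at h
  rw [Measure.volume_eq_prod, ← Measure.prod_restrict, integral_prod_symm _ h]
  simp only [J, W, ← mul_assoc, integral_mul_const]

lemma iter3 (A B : Prof) (lam : ℝ) :
    ∫ p in Ioo (-r) r ×ˢ Ioo 0 c,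
        u (f.P p) * (A.F2 p.1 * B.F p.2 + A.F p.1 * B.F2 p.2 + lam * (A.F p.1 * B.F p.2)) =
      J u f r c A.F2 B.F + J u f r c A.F B.F2 + lam * J u f r c A.F B.F := by
  have a0 := A.c0
  have a2 := A.c2
  have b0 := B.c0
  have b2 := B.c2
  have i1 := intR hc hb hR (fun p => A.F2 p.1 * B.F p.2) (by fun_prop)
  have i2 := intR hc hb hR (fun p => A.F p.1 * B.F2 p.2) (by fun_prop)
  have i3 := intR hc hb hR (fun p => A.F p.1 * B.F p.2) (by fun_prop)
  have i4 : IntegrableOn (fun p : ℝ × ℝ => u (f.P p) * (A.F2 p.1 * B.F p.2) +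
      u (f.P p) * (A.F p.1 * B.F2 p.2)) (Ioo (-r) r ×ˢ Ioo 0 c) volume := i1.add i2
  rw [← iter hc hb hR _ _ a2 b0, ← iter hc hb hR _ _ a0 b2, ← iter hc hb hR _ _ a0 b0,
    ← integral_const_mul, ← integral_add i1 i2, ← integral_add i4 (i3.const_mul _)]
  congr 1
  funext p
  ring

lemma J_le (k g h : ℝ → ℝ) (hk : Continuous k) (hg : Continuous g) (hh : Continuous h)
    (H : ∀ y ∈ Ioo 0 c, W u f r k y * g y ≤ h y) : J u f r c k g ≤ ∫ y in Ioo 0 c, h y :=
  setIntegral_mono_on (intW hc hb hR k g hk hg) (intOn_Ioo h hh _ _) measurableSet_Ioo H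

lemma le_J (k g h : ℝ → ℝ) (hk : Continuous k) (hg : Continuous g) (hh : Continuous h)
    (H : ∀ y ∈ Ioo 0 c, h y ≤ W u f r k y * g y) : ∫ y in Ioo 0 c, h y ≤ J u f r c k g :=
  setIntegral_mono_on (intOn_Ioo h hh _ _) (intW hc hb hR k g hk hg) measurableSet_Ioo H

lemma W_le (k h : ℝ → ℝ) (hk : Continuous k) (hh : Continuous h) {y : ℝ} (hy : y ∈ Ioo 0 c)
    (H : ∀ x, |x| < r → u (f.P (x, y)) * k x ≤ h x) : W u f r k y ≤ ∫ x in Ioo (-r) r, h x :=
  setIntegral_mono_on (intX hc hb hR k hk hy) (intOn_Ioo h hh _ _) measurableSet_Ioo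
    fun x hx => H x (abs_lt.2 hx)

lemma le_W (k h : ℝ → ℝ) (hk : Continuous k) (hh : Continuous h) {y : ℝ} (hy : y ∈ Ioo 0 c)
    (H : ∀ x, |x| < r → h x ≤ u (f.P (x, y)) * k x) : ∫ x in Ioo (-r) r, h x ≤ W u f r k y :=
  setIntegral_mono_on (intOn_Ioo h hh _ _) (intX hc hb hR k hk hy) measurableSet_Ioo
    fun x hx => H x (abs_lt.2 hx)

lemma J_abs (hc0 : 0 ≤ c) (k g : ℝ → ℝ) (hk : Continuous k) (hg : Continuous g) (M : ℝ)
    (H : ∀ y ∈ Ioo 0 c, |W u f r k y * g y| ≤ M) : |J u f r c k g| ≤ M * c := by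
  have e : ∀ m : ℝ, ∫ _ in Ioo 0 c, m = m * c := fun m => by
    rw [setIntegral_const, Real.volume_real_Ioo_of_le hc0, smul_eq_mul]; ring
  have h1 := J_le hc hb hR k g (fun _ => M) hk hg continuous_const fun y hy => (abs_le.1 (H y hy)).2
  have h2 := le_J hc hb hR k g (fun _ => -M) hk hg continuous_const
    fun y hy => (abs_le.1 (H y hy)).1
  rw [e] at h1 h2
  rw [abs_le]
  constructor <;> linarith

lemma W_abs (hr : 0 ≤ r) (k : ℝ → ℝ) (hk : Continuous k) {y : ℝ} (hy : y ∈ Ioo 0 c) (M : ℝ)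
    (H : ∀ x, |x| < r → |u (f.P (x, y)) * k x| ≤ M) : |W u f r k y| ≤ M * (2 * r) := by
  have e : ∀ m : ℝ, ∫ _ in Ioo (-r) r, m = m * (2 * r) := fun m => by
    rw [setIntegral_const, Real.volume_real_Ioo_of_le (by linarith), smul_eq_mul]; ring
  have h1 := W_le hc hb hR k (fun _ => M) hk continuous_const hy fun x hx => (abs_le.1 (H x hx)).2
  have h2 := le_W hc hb hR k (fun _ => -M) hk continuous_const hy
    fun x hx => (abs_le.1 (H x hx)).1
  rw [e] at h1 h2
  rw [abs_le]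
  constructor <;> linarith

end

/-- what is used of a positive log-concave solution -/
structure Sol (Ω : Set E) (α lam S : ℝ) (u : E → ℝ) : Prop where
  ho : IsOpen Ω
  pos : ∀ x ∈ Ω, 0 < u x
  conc : ConcaveOn ℝ Ω fun x => Real.log (u x)
  cont : ContinuousOn u Ω
  ub : ∀ x ∈ Ω, |u x| ≤ S
  lam0 : 0 ≤ lam
  al0 : 0 < α
  idIn : ∀ (f : Fr) (A B : Prof) (r c : ℝ), 0 ≤ r → 0 ≤ c →
    (∀ x, r ≤ |x| → A.F x = 0 ∧ A.F1 x = 0 ∧ A.F2 x = 0) →
    (∀ y, c ≤ y ∨ y ≤ 0 → B.F y = 0 ∧ B.F1 y = 0 ∧ B.F2 y = 0) → Rect Ω f r c →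
    J u f r c A.F2 B.F + J u f r c A.F B.F2 + lam * J u f r c A.F B.F = 0
  idBd : ∀ (f : Fr) (r c0 : ℝ), 0 < r → Side Ω f r c0 → ∃ b : ℝ, ∀ ε, 0 < ε → ε ≤ c0 →
    J u f r ε (psi r).F2 (eta ε).F + J u f r ε (psi r).F (eta ε).F2 +
      lam * J u f r ε (psi r).F (eta ε).F = (α + 3 / ε) * b

lemma Side.rect {Ω : Set E} {f : Fr} {r c0 c : ℝ} (h : Side Ω f r c0) (hc : c ≤ c0) :
    Rect Ω f r c := fun x y h1 h2 h3 => (h x y h1.le (by linarith)).1.2 h2

lemma Side.mono {Ω : Set E} {f : Fr} {r c r' c' : ℝ} (h : Side Ω f r c) (hr : r' ≤ r)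
    (hc : c' ≤ c) : Side Ω f r' c' := fun x y h1 h2 => h x y (h1.trans hr) (h2.trans hc)

lemma conc_bdd {Ω : Set E} (ho : IsOpen Ω) (hb : Bornology.IsBounded Ω) (hne : Ω.Nonempty)
    {v : E → ℝ} (hv : ConcaveOn ℝ Ω v) : ∃ M, ∀ x ∈ Ω, v x ≤ M := by
  obtain ⟨c, hc⟩ := hne
  obtain ⟨δ, hδ, hball⟩ := Metric.nhds_basis_closedBall.mem_iff.1 (ho.mem_nhds hc)
  obtain ⟨R, hR0, hR⟩ := hb.subset_closedBall_lt 0 c
  obtain ⟨m, hm⟩ := (isCompact_closedBall c δ).exists_bound_of_continuousOn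
    ((hv.continuousOn ho).mono hball)
  refine ⟨(1 + R / δ) * m + R / δ * m, fun x hx => ?_⟩
  have hx' : ‖x - c‖ ≤ R := by simpa [dist_eq_norm] using hR hx
  set θ := δ / R with hθ
  have hθ0 : 0 < θ := by positivity
  have hy : c - θ • (x - c) ∈ Metric.closedBall c δ := by
    rw [mem_closedBall_iff_norm, sub_sub_cancel_left, norm_neg, norm_smul, Real.norm_eq_abs,
      abs_of_pos hθ0]
    calc θ * ‖x - c‖ ≤ θ * R := by gcongr
      _ = δ := by rw [hθ]; field_simp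
  have h := hv.2 (hball hy) hx (show (0 : ℝ) ≤ 1 / (1 + θ) by positivity)
    (show (0 : ℝ) ≤ θ / (1 + θ) by positivity) (by field_simp)
  have e : (1 / (1 + θ)) • (c - θ • (x - c)) + (θ / (1 + θ)) • x = c := by
    have : (1 + θ) ≠ 0 := by positivity
    match_scalars <;> field_simp <;> ring
  rw [e, smul_eq_mul, smul_eq_mul] at h
  have b1 := abs_le.1 (hm _ hy)
  have b2 := abs_le.1 (hm c (Metric.mem_closedBall_self hδ.le))
  have h2 : v (c - θ • (x - c)) + θ * v x ≤ (1 + θ) * v c := by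
    have : (1 + θ) * (1 / (1 + θ) * v (c - θ • (x - c)) + θ / (1 + θ) * v x) =
        v (c - θ • (x - c)) + θ * v x := by field_simp
    rw [← this]
    exact mul_le_mul_of_nonneg_left h (by positivity)
  have h3 : θ * v x ≤ (1 + θ) * m + m := by nlinarith
  have h4 : R / δ * θ = 1 := by rw [hθ]; field_simp
  have h5 : 0 < R / δ := by positivity
  nlinarith

theorem exists_sol {Ω : Set E} (ho : IsOpen Ω) (hb : Bornology.IsBounded Ω) (hne : Ω.Nonempty)
    {α : ℝ} (hα : 0 < α) {u : E → ℝ} (h : IsFirstRobin Ω α u)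
    (hv : ConcaveOn ℝ Ω fun x => Real.log (u x)) : ∃ lam S, Sol Ω α lam S u := by
  obtain ⟨G, T, lam, hS, hl, hw⟩ := weak ho hb hne hα h
  obtain ⟨M, hM⟩ := conc_bdd ho hb hne hv
  have hc : ContinuousOn u Ω :=
    (Real.continuous_exp.comp_continuousOn (hv.continuousOn ho)).congr
      fun x hx => (Real.exp_log (h.1 x hx)).symm
  have hub : ∀ x ∈ Ω, |u x| ≤ Real.exp M := fun x hx => by
    rw [abs_of_pos (h.1 x hx), ← Real.exp_log (h.1 x hx)]
    exact Real.exp_le_exp.2 (hM x hx)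
  refine ⟨lam, Real.exp M, ho, h.1, hv, hc, hub, hl, hα, ?_, ?_⟩
  · intro f A B r c hr hc0 sA sB hR
    rw [← iter3 hc hub hR]
    exact ident_in ho hb hS hw f A B hr hc0 sA sB hR
  · intro f r c0 hr hs
    obtain ⟨b, hb'⟩ := ident_bd ho hb hS hw f (psi r) hr.le hs (psi_supp hr)
    refine ⟨b, fun ε hε hc0 => ?_⟩
    rw [← iter3 hc hub (hs.rect hc0), hb' (eta ε) ε hε.le hc0 (eta_supp hε), eta0, eta10]
    ring

lemma four_pt {s : Set ℝ} {g : ℝ → ℝ} (hg : ConcaveOn ℝ s g) {t1 t2 t3 t4 : ℝ} (h1 : t1 ∈ s)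
    (h4 : t4 ∈ s) (h12 : t1 < t2) (h23 : t2 ≤ t3) (h34 : t3 < t4) :
    (g t4 - g t3) / (t4 - t3) ≤ (g t2 - g t1) / (t2 - t1) := by
  rcases h23.eq_or_lt with rfl | h23
  · exact hg.slope_anti_adjacent h1 h4 h12 h34
  · have o := hg.1.ordConnected
    have h2 : t2 ∈ s := o.out h1 h4 ⟨h12.le, by linarith⟩
    have h3 : t3 ∈ s := o.out h1 h4 ⟨by linarith, h34.le⟩
    exact (hg.slope_anti_adjacent h2 h4 h23 h34).trans (hg.slope_anti_adjacent h1 h3 h12 h23)

lemma conc_line {Ω : Set E} {v : E → ℝ} (hv : ConcaveOn ℝ Ω v) (a d : E) :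
    ConcaveOn ℝ {t : ℝ | a + t • d ∈ Ω} fun t => v (a + t • d) := by
  have := hv.comp_affineMap (AffineMap.lineMap a (a + d) : ℝ →ᵃ[ℝ] E)
  have e : ∀ t : ℝ, (AffineMap.lineMap a (a + d) : ℝ →ᵃ[ℝ] E) t = a + t • d := fun t => by
    rw [AffineMap.lineMap_apply]; simp [add_comm]
  have e1 : {t : ℝ | a + t • d ∈ Ω} = (AffineMap.lineMap a (a + d) : ℝ →ᵃ[ℝ] E) ⁻¹' Ω := by
    ext t; simp [e]
  have e2 : (fun t : ℝ => v (a + t • d)) = v ∘ (AffineMap.lineMap a (a + d) : ℝ →ᵃ[ℝ] E) := by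
    funext t; simp [e]
  rw [e1, e2]
  exact this

lemma no_growth {Ω : Set E} {α lam S : ℝ} {u : E → ℝ} (H : Sol Ω α lam S u) (f : Fr) {r c m : ℝ}
    (hr : 0 < r) (hc : 0 < c) (hs : Side Ω f r c) (hm : α < m)
    (hg : ∀ x y1 y2, |x| < r → 0 < y1 → y1 < y2 → y2 < c →
      u (f.P (x, y1)) * (1 + m * (y2 - y1)) ≤ u (f.P (x, y2))) : False := by
  obtain ⟨b, hb⟩ := H.idBd f r c hr hs
  have hR := hs.rect le_rfl
  have hm0 : 0 < m := H.al0.trans hm
  have c0 := (psi r).c0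
  have c2 := (psi r).c2
  have hS : 0 ≤ S := (abs_nonneg _).trans (H.ub _ (hR 0 (c / 2) (by simpa) (by linarith)
    (by linarith)))
  have Wpos : ∀ y ∈ Ioo 0 c, 0 < W u f r (psi r).F y := by
    intro y hy
    have hp : ∀ x ∈ Ioo (-r) r, 0 < u (f.P (x, y)) * (psi r).F x := fun x hx =>
      mul_pos (H.pos _ (hR x y (abs_lt.2 hx) hy.1 hy.2)) (psi_pos hr x (abs_lt.2 hx))
    unfold W
    rw [setIntegral_pos_iff_support_of_nonneg_ae
      ((ae_restrict_mem measurableSet_Ioo).mono fun x hx => (hp x hx).le)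
      (intX H.cont H.ub hR _ c0 hy)]
    refine lt_of_lt_of_le ?_ (measure_mono fun x hx => ⟨(hp x hx).ne', hx⟩)
    simpa using hr
  have Wmono : ∀ y1 y2, 0 < y1 → y1 < y2 → y2 < c →
      W u f r (psi r).F y1 * (1 + m * (y2 - y1)) ≤ W u f r (psi r).F y2 := by
    intro y1 y2 a1 a2 a3
    unfold W
    rw [← integral_mul_const]
    refine setIntegral_mono_on ((intX H.cont H.ub hR _ c0 ⟨a1, by linarith⟩).mul_const _)
      (intX H.cont H.ub hR _ c0 ⟨by linarith, a3⟩) measurableSet_Ioo fun x hx => ?_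
    have := mul_le_mul_of_nonneg_right (hg x y1 y2 (abs_lt.2 hx) a1 a2 a3)
      (psi_pos hr x (abs_lt.2 hx)).le
    linarith
  have VW : ∀ y ∈ Ioo 0 c, -(6 / r ^ 2) * W u f r (psi r).F y ≤ W u f r (psi r).F2 y := by
    intro y hy
    unfold W
    rw [← integral_const_mul]
    refine setIntegral_mono_on ((intX H.cont H.ub hR _ c0 hy).const_mul _)
      (intX H.cont H.ub hR _ c2 hy) measurableSet_Ioo fun x hx => ?_
    have := mul_le_mul_of_nonneg_left (psi2_ge hr x (abs_lt.2 hx))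
      (H.pos _ (hR x y (abs_lt.2 hx) hy.1 hy.2)).le
    linarith
  obtain ⟨M, hM0, hM⟩ : ∃ M, 0 ≤ M ∧ ∀ ε, 0 < ε → ε ≤ c →
      |J u f r ε (psi r).F (eta ε).F2 - (α + 3 / ε) * b| ≤ M * ε := by
    have := H.lam0
    refine ⟨S * (30 / r ^ 2) * (2 * r) + lam * (S * (2 * r)), by positivity, fun ε hε hεc => ?_⟩
    have hR' := hs.rect hεc
    have j1 := J_abs H.cont H.ub hR' hε.le _ _ c2 (eta ε).c0 (S * (30 / r ^ 2) * (2 * r))
      (fun y hy => by
        obtain ⟨e1, e2, -⟩ := eta_in hε y hy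
        have := W_abs H.cont H.ub hR' hr.le _ c2 hy (S * (30 / r ^ 2)) (fun x hx => by
          rw [abs_mul]
          exact mul_le_mul (H.ub _ (hR' x y hx hy.1 hy.2)) (psi2_abs hr x hx) (abs_nonneg _) hS)
        rw [abs_mul, abs_of_pos e1]
        nlinarith [abs_nonneg (W u f r (psi r).F2 y)])
    have j2 := J_abs H.cont H.ub hR' hε.le _ _ c0 (eta ε).c0 (S * (2 * r))
      (fun y hy => by
        obtain ⟨e1, e2, -⟩ := eta_in hε y hy
        have := W_abs H.cont H.ub hR' hr.le _ c0 hy (S * 1) (fun x hx => by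
          rw [abs_mul, abs_of_pos (psi_pos hr x hx)]
          exact mul_le_mul (H.ub _ (hR' x y hx hy.1 hy.2)) (psi_le hr x hx)
            (psi_pos hr x hx).le hS)
        rw [abs_mul, abs_of_pos e1]
        nlinarith [abs_nonneg (W u f r (psi r).F y)])
    rw [← hb ε hε hεc]
    have j3 := abs_le.1 j1
    have j4 := abs_le.1 j2
    rw [abs_le]
    constructor <;> nlinarith
  have bpos : 0 < b := by
    set ε := min (r / 2) c with hε
    have e0 : 0 < ε := lt_min (by linarith) hc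
    have e1 : ε ≤ r / 2 := min_le_left _ _
    have e2 : ε ≤ c := min_le_right _ _
    have hR' := hs.rect e2
    have i1 := intW H.cont H.ub hR' _ _ c2 (eta ε).c0
    have i2 := intW H.cont H.ub hR' _ _ c0 (eta ε).c2
    have i3 := intW H.cont H.ub hR' _ _ c0 (eta ε).c0
    have j3 : 0 ≤ J u f r ε (psi r).F (eta ε).F :=
      setIntegral_nonneg measurableSet_Ioo fun y hy =>
        (mul_pos (Wpos y ⟨hy.1, hy.2.trans_le e2⟩) (eta_in e0 y hy).1).le
    have hp : ∀ y ∈ Ioo 0 ε, 0 < W u f r (psi r).F2 y * (eta ε).F y +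
        W u f r (psi r).F y * (eta ε).F2 y := by
      intro y hy
      obtain ⟨a1, -, a3, a4⟩ := eta_in e0 y hy
      have w := Wpos y ⟨hy.1, hy.2.trans_le e2⟩
      have v := VW y ⟨hy.1, hy.2.trans_le e2⟩
      have a5 : 6 / r ^ 2 * (eta ε).F y ≤ (eta ε).F2 y / 4 := by
        rw [div_mul_eq_mul_div, div_le_iff₀ (by positivity)]
        have : ε ^ 2 ≤ (r / 2) ^ 2 := pow_le_pow_left₀ e0.le e1 2
        nlinarith
      have a6 := mul_le_mul_of_nonneg_right v a1.le
      have a7 := mul_le_mul_of_nonneg_left a5 w.le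
      have a8 := mul_pos w a3
      nlinarith
    have j12 : 0 < J u f r ε (psi r).F2 (eta ε).F + J u f r ε (psi r).F (eta ε).F2 := by
      unfold J
      rw [← integral_add i1 i2, setIntegral_pos_iff_support_of_nonneg_ae
        ((ae_restrict_mem measurableSet_Ioo).mono fun x hx => (hp x hx).le) (i1.add i2)]
      refine lt_of_lt_of_le ?_ (measure_mono fun x hx => ⟨(hp x hx).ne', hx⟩)
      simpa using e0
    have := hb ε e0 e2
    have h1 : 0 < (α + 3 / ε) * b := by nlinarith [mul_nonneg H.lam0 j3]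
    have h2 : 0 < α + 3 / ε := by have := H.al0; positivity
    exact (pos_iff_pos_of_mul_pos h1).1 h2
  have small : ∀ (a K δ : ℝ), 0 < δ → 0 ≤ K → (∀ ε, 0 < ε → ε ≤ δ → a ≤ K * ε) → a ≤ 0 := by
    intro a K δ hδ hK h
    apply le_of_forall_pos_le_add
    intro η hη
    have := h (min δ (η / (K + 1))) (lt_min hδ (by positivity)) (min_le_left _ _)
    have h2 : K * min δ (η / (K + 1)) ≤ K * (η / (K + 1)) :=
      mul_le_mul_of_nonneg_left (min_le_right _ _) hK
    have h3 : K * (η / (K + 1)) ≤ η := by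
      rw [← mul_div_assoc, div_le_iff₀ (by positivity)]; nlinarith
    linarith
  have bW : ∀ y ∈ Ioo 0 c, b ≤ W u f r (psi r).F y := by
    intro y hy
    have := small (3 * (b - W u f r (psi r).F y)) (M * y) y hy.1 (mul_nonneg hM0 hy.1.le)
      (fun ε e0 e1 => by
        have e2 : ε ≤ c := e1.trans hy.2.le
        have a1 := J_le H.cont H.ub (hs.rect e2) _ _
          (fun t => (W u f r (psi r).F y + 0 * t) * (eta ε).F2 t) c0 (eta ε).c2
          (by have := (eta ε).c2; fun_prop) (fun t ht => by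
            have a := Wmono t y ht.1 (ht.2.trans_le e1) hy.2
            have w := Wpos t ⟨ht.1, ht.2.trans_le e2⟩
            have a' : 0 ≤ W u f r (psi r).F t * (m * (y - t)) :=
              mul_nonneg w.le (mul_nonneg hm0.le (by linarith [ht.2]))
            exact mul_le_mul_of_nonneg_right (by linarith) (eta_in e0 t ht).2.2.1.le)
        rw [eta_aff e0] at a1
        have a2 := (abs_le.1 (hM ε e0 e2)).1
        have a3 : 3 / ε * (b - W u f r (psi r).F y) ≤ M * ε := by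
          have : 3 * W u f r (psi r).F y / ε = 3 / ε * W u f r (psi r).F y := by ring
          nlinarith [mul_pos H.al0 bpos]
        rw [div_mul_eq_mul_div, div_le_iff₀ e0] at a3
        nlinarith [mul_le_mul_of_nonneg_left e1 (mul_nonneg hM0 e0.le)])
    linarith
  have bW2 : ∀ y ∈ Ioo 0 c, b + b * m * y ≤ W u f r (psi r).F y := by
    intro y hy
    have := small (b + b * m * y - W u f r (psi r).F y) (b * m) (y / 2) (by linarith [hy.1])
      (by positivity) (fun ε e0 e1 => by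
        have a := Wmono ε y e0 (by linarith [hy.1]) hy.2
        have a2 := bW ε ⟨e0, by linarith [hy.1, hy.2]⟩
        have a3 : 0 ≤ 1 + m * (y - ε) := by
          have : 0 ≤ m * (y - ε) := mul_nonneg hm0.le (by linarith [hy.1])
          linarith
        nlinarith [mul_le_mul_of_nonneg_right a2 a3])
    linarith
  have := small ((m - α) * b) M c hc hM0 (fun ε e0 e1 => by
    have a1 := le_J H.cont H.ub (hs.rect e1) _ _
      (fun t => (b + b * m * t) * (eta ε).F2 t) c0 (eta ε).c2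
      (by have := (eta ε).c2; fun_prop) (fun t ht =>
        mul_le_mul_of_nonneg_right (bW2 t ⟨ht.1, ht.2.trans_le e1⟩) (eta_in e0 t ht).2.2.1.le)
    rw [eta_aff e0] at a1
    have a2 := (abs_le.1 (hM ε e0 e1)).2
    have : 3 * b / ε = 3 / ε * b := by ring
    nlinarith)
  nlinarith [mul_pos (sub_pos.2 hm) bpos]

theorem normal_slope {Ω : Set E} {α lam S : ℝ} {u : E → ℝ} (H : Sol Ω α lam S u) (f : Fr)
    {r c h1 h2 : ℝ} (hr : 0 < r) (hs : Side Ω f r c) (a1 : 0 < h1) (a2 : h1 < h2) (a3 : h2 ≤ c) :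
    Real.log (u (f.P (0, h2))) - Real.log (u (f.P (0, h1))) ≤ α * (h2 - h1) := by
  by_contra hcon
  push Not at hcon
  have hin : ∀ x y, |x| ≤ r → 0 < y → y ≤ c → f.P (x, y) ∈ Ω :=
    fun x y b1 b2 b3 => (hs x y b1 b3).1.2 b2
  obtain ⟨m, m1, m2⟩ := exists_between ((lt_div_iff₀ (sub_pos.2 a2)).2 hcon)
  rw [lt_div_iff₀ (sub_pos.2 a2)] at m2
  have cP := f.contP
  have ct : ∀ y, 0 < y → y ≤ c → ContinuousAt (fun x => Real.log (u (f.P (x, y)))) 0 := by
    intro y b1 b2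
    have := (H.conc.continuousOn H.ho).continuousAt
      (H.ho.mem_nhds (hin 0 y (by simpa using hr.le) b1 b2))
    exact ContinuousAt.comp (f := fun x => f.P (x, y)) this (by fun_prop)
  have ev := ((ct h2 (by linarith) a3).sub (ct h1 a1 (by linarith))).eventually
    (lt_mem_nhds m2)
  obtain ⟨δ, hδ, hev⟩ := Metric.eventually_nhds_iff.1 ev
  refine no_growth H f (r := min r δ) (c := h1) (lt_min hr hδ) a1
    (hs.mono (min_le_left _ _) (by linarith)) m1 ?_
  intro x y1 y2 hx b1 b2 b3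
  have hxr : |x| ≤ r := hx.le.trans (min_le_left _ _)
  have h4 := hev (y := x) (by simpa using hx.trans_le (min_le_right _ _))
  have e : ∀ y, f.P (x, y) = (f.q + x • f.t) + y • f.n := fun y => rfl
  have := four_pt (conc_line H.conc (f.q + x • f.t) f.n) (t1 := y1) (t2 := y2) (t3 := h1)
    (t4 := h2) (hin x y1 hxr b1 (by linarith)) (hin x h2 hxr (by linarith) a3) b2 b3.le a2
  simp only [← e] at this
  have h5 : m ≤ (Real.log (u (f.P (x, y2))) - Real.log (u (f.P (x, y1)))) / (y2 - y1) :=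
    le_trans ((le_div_iff₀ (sub_pos.2 a2)).2 h4.le) this
  rw [le_div_iff₀ (sub_pos.2 b2)] at h5
  have p1 := H.pos _ (hin x y1 hxr b1 (by linarith))
  have p2 := H.pos _ (hin x y2 hxr (by linarith) (by linarith))
  calc u (f.P (x, y1)) * (1 + m * (y2 - y1)) ≤ u (f.P (x, y1)) * Real.exp (m * (y2 - y1)) :=
        mul_le_mul_of_nonneg_left (by linarith [Real.add_one_le_exp (m * (y2 - y1))]) p1.le
    _ = Real.exp (Real.log (u (f.P (x, y1))) + m * (y2 - y1)) := by
        rw [Real.exp_add, Real.exp_log p1]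
    _ ≤ Real.exp (Real.log (u (f.P (x, y2)))) := Real.exp_le_exp.2 (by linarith)
    _ = _ := Real.exp_log p2

end Pool.Agent.H232Z.Rob
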