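import Pool.Agent.H232Z.Rob.Frame

/-! The weak equation of a minimiser. -/

set_option autoImplicit false
set_option linter.unusedSectionVars false

open MeasureTheory Set Filter Topology
open scoped InnerProductSpace

namespace Pool.Agent.H232Z.Rob

lemma memLp_cont {V : Type} [NormedAddCommGroup V] [SecondCountableTopology V] {Ω : Set E}
    (ho : MeasurableSet Ω) (hb : Bornology.IsBounded Ω) (μ : Measure E) (hμ : μ Ω < ⊤)
    (k : E → V) (hk : Continuous k) : MemLp k 2 (μ.restrict Ω) := by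
  have : IsFiniteMeasure (μ.restrict Ω) := ⟨by simpa using hμ⟩
  obtain ⟨C, hC⟩ := hb.isCompact_closure.exists_bound_of_continuousOn hk.continuousOn
  exact MemLp.of_bound hk.aestronglyMeasurable C
    ((ae_restrict_mem ho).mono fun x hx => hC x (subset_closure hx))

section
variable {X V : Type} [MeasurableSpace X] [NormedAddCommGroup V] [InnerProductSpace ℝ V]
  {μ : Measure X}

lemma int_sq {a : X → V} (ha : MemLp a 2 μ) : Integrable (fun x => ‖a x‖ ^ 2) μ :=
  (memLp_two_iff_integrable_sq_norm ha.1).1 ha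

lemma int_inner {a b : X → V} (ha : MemLp a 2 μ) (hb : MemLp b 2 μ) :
    Integrable (fun x => ⟪a x, b x⟫_ℝ) μ := by
  have := ((int_sq (ha.add hb)).sub ((int_sq ha).add (int_sq hb))).div_const 2
  refine this.congr (Eventually.of_forall fun x => ?_)
  simp only [Pi.add_apply, Pi.sub_apply, norm_add_sq_real]
  ring

lemma sq_expand {a b : X → V} (ha : MemLp a 2 μ) (hb : MemLp b 2 μ) (t : ℝ) :
    ∫ x, ‖(a + t • b) x‖ ^ 2 ∂μ =
      (∫ x, ‖a x‖ ^ 2 ∂μ) + 2 * t * (∫ x, ⟪a x, b x⟫_ℝ ∂μ) + t ^ 2 * ∫ x, ‖b x‖ ^ 2 ∂μ := by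
  have i1 : Integrable (fun x => ‖a x‖ ^ 2 + 2 * t * ⟪a x, b x⟫_ℝ) μ :=
    (int_sq ha).add ((int_inner ha hb).const_mul _)
  rw [← integral_const_mul, ← integral_const_mul,
    ← integral_add (int_sq ha) ((int_inner ha hb).const_mul _),
    ← integral_add i1 ((int_sq hb).const_mul _)]
  congr 1
  funext x
  simp only [Pi.add_apply, Pi.smul_apply, norm_add_sq_real, inner_smul_right, norm_smul, mul_pow,
    Real.norm_eq_abs, sq_abs]
  ring

end

lemma sq_expand' {X : Type} [MeasurableSpace X] {μ : Measure X} {a b : X → ℝ} (ha : MemLp a 2 μ)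
    (hb : MemLp b 2 μ) (t : ℝ) :
    ∫ x, (a + t • b) x ^ 2 ∂μ =
      (∫ x, a x ^ 2 ∂μ) + 2 * t * (∫ x, a x * b x ∂μ) + t ^ 2 * ∫ x, b x ^ 2 ∂μ := by
  have := sq_expand ha hb t
  simpa only [Real.norm_eq_abs, sq_abs, RCLike.inner_apply, conj_trivial, mul_comm (b _)] using this

lemma cont_grad {φ : E → ℝ} (h : ContDiff ℝ 1 φ) : Continuous (gradient φ) :=
  (InnerProductSpace.toDual ℝ E).symm.continuous.comp (h.continuous_fderiv (by norm_num))

lemma lin_zero {a b : ℝ} (h : ∀ t : ℝ, 0 ≤ 2 * t * a + t ^ 2 * b) : a = 0 := by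
  by_contra ha
  have hb : 0 < |b| + 1 := by positivity
  have h1 := h (-a / (|b| + 1))
  have h2 : 0 < a ^ 2 := by positivity
  have h3 : 2 * (-a / (|b| + 1)) * a + (-a / (|b| + 1)) ^ 2 * b =
      a ^ 2 * (b - 2 * (|b| + 1)) / (|b| + 1) ^ 2 := by
    field_simp
    ring
  rw [h3] at h1
  have h4 : b - 2 * (|b| + 1) < 0 := by
    have := le_abs_self b
    have := abs_nonneg b
    linarith
  have h5 : a ^ 2 * (b - 2 * (|b| + 1)) / (|b| + 1) ^ 2 < 0 :=
    div_neg_of_neg_of_pos (mul_neg_of_pos_of_neg h2 h4) (by positivity)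
  linarith

theorem weak {Ω : Set E} (ho : IsOpen Ω) (hb : Bornology.IsBounded Ω) (hne : Ω.Nonempty) {α : ℝ}
    (hα : 0 < α) {u : E → ℝ} (h : IsFirstRobin Ω α u) :
    ∃ (G : E → E) (T : E → ℝ) (lam : ℝ), IsSobolev Ω u G T ∧ 0 ≤ lam ∧
      ∀ φ : E → ℝ, ContDiff ℝ 1 φ → MemLp φ 2 (bdry Ω) →
        (∫ x in Ω, ⟪G x, gradient φ x⟫_ℝ) + α * ∫ x, T x * φ x ∂(bdry Ω) =
          lam * ∫ x in Ω, u x * φ x := by
  obtain ⟨hpos, G, T, hS, hmin⟩ := h
  have hN : 0 < ∫ x in Ω, u x ^ 2 := by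
    have hi : Integrable (fun x => u x ^ 2) (volume.restrict Ω) := by
      simpa using int_sq hS.memLp_u
    rw [setIntegral_pos_iff_support_of_nonneg_ae (Eventually.of_forall fun x => sq_nonneg _) hi]
    refine lt_of_lt_of_le (ho.measure_pos volume hne) (measure_mono fun x hx => ⟨?_, hx⟩)
    exact (pow_pos (hpos x hx) 2).ne'
  have n1 : ∀ H : E → E, 0 ≤ ∫ x in Ω, ‖H x‖ ^ 2 := fun H => integral_nonneg fun x => sq_nonneg _
  have n2 : ∀ S : E → ℝ, 0 ≤ ∫ x, S x ^ 2 ∂(bdry Ω) := fun S => integral_nonneg fun x => sq_nonneg _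
  have n3 : ∀ S : E → ℝ, 0 ≤ ∫ x in Ω, S x ^ 2 := fun S => integral_nonneg fun x => sq_nonneg _
  have hlam : 0 ≤ rayleigh Ω α u G T := by
    unfold rayleigh
    have := n1 G
    have := n2 T
    positivity
  refine ⟨G, T, rayleigh Ω α u G T, hS, hlam, fun φ hφ hφb => ?_⟩
  have m1 := memLp_cont ho.measurableSet hb volume hb.measure_lt_top φ hφ.continuous
  have m2 := memLp_cont ho.measurableSet hb volume hb.measure_lt_top _ (cont_grad hφ)
  have hQ : rayleigh Ω α u G T * ∫ x in Ω, u x ^ 2 =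
      (∫ x in Ω, ‖G x‖ ^ 2) + α * ∫ x, T x ^ 2 ∂(bdry Ω) := div_mul_cancel₀ _ hN.ne'
  generalize rayleigh Ω α u G T = lam at *
  have key : ∀ t : ℝ, lam * ∫ x in Ω, (u + t • φ) x ^ 2 ≤
      (∫ x in Ω, ‖(G + t • gradient φ) x‖ ^ 2) + α * ∫ x, (T + t • φ) x ^ 2 ∂(bdry Ω) := by
    intro t
    by_cases h0 : ∫ x in Ω, (u + t • φ) x ^ 2 = 0
    · rw [h0, mul_zero]
      have := n1 (G + t • gradient φ)
      have := n2 (T + t • φ)
      positivity
    obtain ⟨ψ, a1, a2, a3, a4⟩ := hS.approx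
    have hS' : IsSobolev Ω (u + t • φ) (G + t • gradient φ) (T + t • φ) := by
      refine ⟨hS.memLp_u.add (m1.const_smul t), hS.memLp_G.add (m2.const_smul t),
        hS.memLp_T.add (hφb.const_smul t), fun k => ψ k + t • φ,
        fun k => (a1 k).add (hφ.const_smul t), ?_, ?_, ?_⟩
      · simpa only [add_sub_add_right_eq_sub] using a2
      · have : ∀ k, gradient (ψ k + t • φ) = gradient (ψ k) + t • gradient φ := by
          intro k
          funext x
          have d1 := ((a1 k).differentiable (by norm_num)) x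
          have d2 := (hφ.differentiable (by norm_num)) x
          simp only [gradient, Pi.add_apply, Pi.smul_apply]
          rw [fderiv_add d1 (d2.const_smul t), fderiv_const_smul d2]
          simp
        simpa only [this, add_sub_add_right_eq_sub] using a3
      · simpa only [add_sub_add_right_eq_sub] using a4
    have := hmin _ _ _ hS' h0
    unfold rayleigh at this
    rwa [le_div_iff₀ (lt_of_le_of_ne (n3 _) (Ne.symm h0))] at this
  have := lin_zero (a := (∫ x in Ω, ⟪G x, gradient φ x⟫_ℝ) + α * (∫ x, T x * φ x ∂(bdry Ω)) -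
      lam * ∫ x in Ω, u x * φ x)
    (b := (∫ x in Ω, ‖gradient φ x‖ ^ 2) + α * (∫ x, φ x ^ 2 ∂(bdry Ω)) -
      lam * ∫ x in Ω, φ x ^ 2) (fun t => by
    have := key t
    rw [sq_expand' hS.memLp_u m1, sq_expand hS.memLp_G m2, sq_expand' hS.memLp_T hφb] at this
    linarith)
  linarith

end Pool.Agent.H232Z.Rob
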